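import Pool.Agent.Helper60.Idg.TreeRep

/-!
Upper bounds for the game on subcubic trees.
-/

namespace Pool.Agent.Helper60.Idg

open scoped Classical

theorem pot_single (b : B) : pot [b] = F b.size := by simp [pot]

theorem tree_pos {V : Type} [Fintype V] {T : SimpleGraph V} (hT : SubcubicTree T) :
    ∃ b, Pos T [b] Finset.univ ∧ b.size = Fintype.card V := by
  have hne : 0 < Fintype.card V := by
    have := hT.1.connected.nonempty
    exact Fintype.card_pos
  obtain ⟨b, w, hb⟩ := exists_Br (Fintype.card V - 1) V T hT (by omega)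
  refine ⟨b, ?_, ?_⟩
  · have := Pos.cons hb Pos.nil (by simp) (by simp)
    simpa using this
  · rw [← hb.card, Finset.card_univ]

theorem F_le (k : ℕ) (hk : 2 ≤ k) : F k ≤ 11 * k := by
  rw [F_eq]
  have := eps_cases k
  omega

theorem F_le_one (k : ℕ) : F k ≤ 11 * k + 9 := by
  rw [F_eq]
  have := eps_cases k
  omega

theorem Idim_le {V : Type} [Fintype V] {T : SimpleGraph V} (hT : SubcubicTree T)
    (hn : 2 ≤ Fintype.card V) : (Idim T : ℝ) ≤ 11 / 20 * (Fintype.card V : ℝ) := by
  obtain ⟨b, hpos, hs⟩ := tree_pos hT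
  have h := upper_dim T _ Finset.univ [b] le_rfl hpos (Fintype.card V) (by simp)
  rw [pot_single, hs] at h
  have h2 := F_le _ hn
  have h3 : Idim T = res T (Fintype.card V) true Finset.univ := by
    rw [Idim, play_eq, legal_empty]; simp
  rw [h3]
  have h4 : (20 : ℤ) * (res T (Fintype.card V) true Finset.univ : ℤ) ≤ 11 * Fintype.card V := by
    linarith
  have h5 : (20 : ℝ) * (res T (Fintype.card V) true Finset.univ : ℝ) ≤ 11 * Fintype.card V := by
    exact_mod_cast h4
  linarith

theorem Iswell_le {V : Type} [Fintype V] {T : SimpleGraph V} (hT : SubcubicTree T)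
    (hn : 2 ≤ Fintype.card V) : (Iswell T : ℝ) ≤ 11 / 20 * (Fintype.card V : ℝ) + 3 / 2 := by
  obtain ⟨b, hpos, hs⟩ := tree_pos hT
  have h := upper_swell T Finset.univ [b] hpos (Fintype.card V) (by simp)
  rw [pot_single, hs] at h
  have h2 := F_le _ hn
  have h3 : Iswell T = res T (Fintype.card V) false Finset.univ := by
    rw [Iswell, play_eq, legal_empty]; simp
  rw [h3]
  have h4 : (20 : ℤ) * (res T (Fintype.card V) false Finset.univ : ℤ) ≤
      11 * Fintype.card V + 30 := by
    linarith
  have h5 : (20 : ℝ) * (res T (Fintype.card V) false Finset.univ : ℝ) ≤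
      11 * Fintype.card V + 30 := by
    exact_mod_cast h4
  linarith

theorem play_le {V : Type} [Fintype V] (G : SimpleGraph V) :
    ∀ (k : ℕ) (dim : Bool) (S : Finset V), play G k dim S ≤ S.card + k := by
  intro k
  induction k with
  | zero => intro dim S; simp [play]
  | succ k ih =>
    intro dim S
    rw [play]
    have hins : ∀ v, (insert v S).card ≤ S.card + 1 := fun v => Finset.card_insert_le _ _
    by_cases h : (legal G S).Nonempty
    · rw [dif_pos h]
      cases dim with
      | true =>
        rw [if_pos rfl]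
        obtain ⟨v, hv⟩ := h
        refine (Finset.inf'_le _ hv).trans ?_
        have h1 := ih false (insert v S)
        have h2 := hins v
        omega
      | false =>
        rw [if_neg (by simp)]
        apply Finset.sup'_le
        intro v _
        have h1 := ih true (insert v S)
        have h2 := hins v
        omega
    · rw [dif_neg h]; omega

theorem limsup_le_of_bound (f : ℕ → ℕ) (c d : ℝ)
    (h : ∀ n, 2 ≤ n → (f n : ℝ) ≤ c * n + d) :
    Filter.limsup (fun n : ℕ => (f n : ℝ) / n) Filter.atTop ≤ c := by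
  have hcob : Filter.IsCoboundedUnder (· ≤ ·) Filter.atTop (fun n : ℕ => (f n : ℝ) / n) := by
    apply Filter.IsBoundedUnder.isCoboundedUnder_le
    exact Filter.isBoundedUnder_of ⟨0, fun n => by positivity⟩
  apply le_of_forall_pos_le_add
  intro ε hε
  refine Filter.limsup_le_of_le hcob ?_
  obtain ⟨N, hN⟩ := exists_nat_gt (d / ε)
  filter_upwards [Filter.eventually_ge_atTop (max 2 N)] with n hn
  have h2 : 2 ≤ n := le_trans (le_max_left _ _) hn
  have hNn : N ≤ n := le_trans (le_max_right _ _) hn
  have hn0 : (0 : ℝ) < n := by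
    have : 0 < n := by omega
    exact_mod_cast this
  rw [div_le_iff₀ hn0]
  have h3 := h n h2
  have h4 : d / ε < n := lt_of_lt_of_le hN (by exact_mod_cast hNn)
  rw [div_lt_iff₀ hε] at h4
  nlinarith

theorem fdim_le (n : ℕ) (hn : 2 ≤ n) : (fdim n : ℝ) ≤ 11 / 20 * n + 0 := by
  unfold fdim
  set S : Set ℕ := {k | ∃ T : SimpleGraph (Fin n), SubcubicTree T ∧ Idim T = k} with hS
  by_cases hne : S.Nonempty
  · have hbdd : BddAbove S := by
      refine ⟨n, ?_⟩
      rintro k ⟨T, hT, rfl⟩
      have := play_le T (Fintype.card (Fin n)) true ∅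
      simpa [Idim] using this
    obtain ⟨T, hT, hk⟩ := Nat.sSup_mem hne hbdd
    rw [← hk]
    have := Idim_le hT (by simpa using hn)
    simpa using this
  · rw [Set.not_nonempty_iff_eq_empty] at hne
    rw [hne]
    simp only [csSup_empty, Nat.bot_eq_zero, Nat.cast_zero]
    positivity

theorem fswell_le (n : ℕ) (hn : 2 ≤ n) : (fswell n : ℝ) ≤ 11 / 20 * n + 3 / 2 := by
  unfold fswell
  set S : Set ℕ := {k | ∃ T : SimpleGraph (Fin n), SubcubicTree T ∧ Iswell T = k} with hS
  by_cases hne : S.Nonempty
  · have hbdd : BddAbove S := by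
      refine ⟨n, ?_⟩
      rintro k ⟨T, hT, rfl⟩
      have := play_le T (Fintype.card (Fin n)) false ∅
      simpa [Iswell] using this
    obtain ⟨T, hT, hk⟩ := Nat.sSup_mem hne hbdd
    rw [← hk]
    have := Iswell_le hT (by simpa using hn)
    simpa using this
  · rw [Set.not_nonempty_iff_eq_empty] at hne
    rw [hne]
    simp only [csSup_empty, Nat.bot_eq_zero, Nat.cast_zero]
    positivity

theorem cdim_le : cdim ≤ 11 / 20 := limsup_le_of_bound fdim _ _ fdim_le

theorem cswell_le : cswell ≤ 11 / 20 := limsup_le_of_bound fswell _ _ fswell_le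

end Pool.Agent.Helper60.Idg
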