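import Pool.Agent.Helper60.Idg.Lower

/-!
The chain is a subcubic tree, and the lower bounds for the constants.
-/

namespace Pool.Agent.Helper60.Idg

open scoped Classical

/-- A graph on `Fin n` given by a parent function is a tree. -/
theorem parent_tree {n : ℕ} (hn : 0 < n) (G : SimpleGraph (Fin n)) (p : Fin n → Fin n)
    (hp : ∀ v, v.val ≠ 0 → (p v).val < v.val)
    (hadj : ∀ v w, G.Adj v w ↔ (v.val ≠ 0 ∧ w = p v) ∨ (w.val ≠ 0 ∧ v = p w)) : G.IsTree := by
  have hreach : ∀ m : ℕ, ∀ v : Fin n, v.val = m → G.Reachable v ⟨0, hn⟩ := by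
    intro m
    induction m using Nat.strong_induction_on with
    | _ m ih =>
      intro v hv
      by_cases h0 : v.val = 0
      · have : v = ⟨0, hn⟩ := Fin.ext h0
        rw [this]
      · have h1 := hp v h0
        have h2 : G.Adj v (p v) := (hadj _ _).mpr (Or.inl ⟨h0, rfl⟩)
        exact h2.reachable.trans (ih _ (by omega) (p v) rfl)
  have hconn : G.Connected := by
    have : Nonempty (Fin n) := ⟨⟨0, hn⟩⟩
    refine ⟨fun v w => ?_⟩
    exact (hreach _ v rfl).trans (hreach _ w rfl).symm
  rw [SimpleGraph.isTree_iff_connected_and_card]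
  refine ⟨hconn, ?_⟩
  -- edges correspond to the vertices other than 0
  have key : Nat.card G.edgeSet = Nat.card {v : Fin n // v.val ≠ 0} := by
    symm
    refine Nat.card_eq_of_bijective
      (fun v : {v : Fin n // v.val ≠ 0} => (⟨s(v.1, p v.1), by
        rw [SimpleGraph.mem_edgeSet, hadj]; exact Or.inl ⟨v.2, rfl⟩⟩ : G.edgeSet)) ⟨?_, ?_⟩
    · rintro ⟨v, hv⟩ ⟨w, hw⟩ h
      simp only [Subtype.mk.injEq, Sym2.eq_iff] at h
      rcases h with ⟨h1, -⟩ | ⟨h1, h2⟩
      · exact Subtype.ext h1
      · exfalso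
        have h3 := hp v hv
        have h4 := hp w hw
        rw [h2] at h3
        rw [← h1] at h4
        omega
    · rintro ⟨e, he⟩
      induction e using Sym2.ind with
      | _ v w =>
        rw [SimpleGraph.mem_edgeSet, hadj] at he
        rcases he with ⟨h1, h2⟩ | ⟨h1, h2⟩
        · refine ⟨⟨v, h1⟩, ?_⟩
          simp only [Subtype.mk.injEq]
          rw [h2]
        · refine ⟨⟨w, h1⟩, ?_⟩
          simp only [Subtype.mk.injEq]
          rw [h2]
          exact Sym2.eq_swap
  rw [key]
  have : Nat.card {v : Fin n // v.val ≠ 0} = n - 1 := by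
    rw [Nat.card_eq_fintype_card, Fintype.card_subtype]
    have h1 : (Finset.univ.filter (fun v : Fin n => v.val ≠ 0)) = Finset.univ.erase ⟨0, hn⟩ := by
      ext v
      simp only [Finset.mem_filter, Finset.mem_univ, true_and, Finset.mem_erase, and_true, ne_eq,
        Fin.ext_iff]
    rw [h1, Finset.card_erase_of_mem (Finset.mem_univ _)]
    simp
  rw [this]
  simp only [Nat.card_eq_fintype_card, Fintype.card_fin]
  omega

/-- parents inside a unit -/
def pl : List ℕ :=
  [0, 0, 0, 2, 3, 2, 5, 6, 6, 8, 9, 9, 8, 12, 12, 5, 15, 15, 17, 18, 18, 17, 21, 21]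

theorem pl_chk : ((List.range 24).all fun j => (List.range 24).all fun t =>
    (Nat.testBit (nb j) t) == ((!(Nat.beq j 0) && Nat.beq t (pl.getD j 0)) ||
      (!(Nat.beq t 0) && Nat.beq j (pl.getD t 0)))) = true := by decide +kernel

theorem pl_lt : ((List.range 24).all fun j => Nat.beq j 0 || Nat.blt (pl.getD j 0) j) = true := by
  decide +kernel

theorem pl_spec {j t : ℕ} (hj : j < 24) (ht : t < 24) :
    (nb j).testBit t = true ↔ (j ≠ 0 ∧ t = pl.getD j 0) ∨ (t ≠ 0 ∧ j = pl.getD t 0) := by
  have := pl_chk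
  rw [List.all_eq_true] at this
  have h1 := this j (List.mem_range.mpr hj)
  rw [List.all_eq_true] at h1
  have h2 := h1 t (List.mem_range.mpr ht)
  rw [beq_iff_eq] at h2
  rw [h2]
  simp only [Bool.or_eq_true, Bool.and_eq_true, Bool.not_eq_true', nbeq, ne_eq]
  have e1 : ∀ a b : ℕ, (Nat.beq a b = false) ↔ ¬ a = b := by
    intro a b
    rw [← nbeq, Bool.not_eq_true]
  rw [e1, e1]

theorem pl_lt' {j : ℕ} (hj : j < 24) (h0 : j ≠ 0) : pl.getD j 0 < j := by
  have := pl_lt
  rw [List.all_eq_true] at this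
  have h1 := this j (List.mem_range.mpr hj)
  rw [Bool.or_eq_true, nbeq, Nat.blt_eq] at h1
  rcases h1 with h1 | h1
  · exact absurd h1 h0
  · exact h1

/-- parents in the chain -/
def par (v : ℕ) : ℕ :=
  if v % 24 = 0 then 24 * (v / 24 - 1) + 3 else 24 * (v / 24) + pl.getD (v % 24) 0

theorem par_lt {v : ℕ} (hv : v ≠ 0) : par v < v := by
  unfold par
  split_ifs with h
  · omega
  · have := pl_lt' (Nat.mod_lt v (by norm_num)) h
    omega

theorem chain_isTree (k : ℕ) (hk : 0 < k) : (chain k).IsTree := by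
  have hpar : ∀ v : Fin (24 * k), v.val ≠ 0 → par v.val < 24 * k := fun v hv =>
    (par_lt hv).trans v.isLt
  refine parent_tree (by omega) (chain k)
    (fun v => if h : v.val ≠ 0 then ⟨par v.val, hpar v h⟩ else v) ?_ ?_
  · intro v hv
    simp only [dif_pos hv]
    exact par_lt hv
  · intro v w
    have hA : (chain k).Adj v w ↔ AdjN v.val w.val := Iff.rfl
    rw [hA]
    have hvw : ∀ a b : Fin (24 * k), (a.val ≠ 0 ∧ b = (if h : a.val ≠ 0 then
        (⟨par a.val, hpar a h⟩ : Fin (24 * k)) else a)) ↔ (a.val ≠ 0 ∧ b.val = par a.val) := by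
      intro a b
      constructor
      · rintro ⟨h1, h2⟩
        rw [dif_pos h1] at h2
        exact ⟨h1, by rw [h2]⟩
      · rintro ⟨h1, h2⟩
        refine ⟨h1, ?_⟩
        rw [dif_pos h1]
        exact Fin.ext h2
    rw [hvw, hvw]
    have hv24 : v.val % 24 < 24 := Nat.mod_lt _ (by norm_num)
    have hw24 : w.val % 24 < 24 := Nat.mod_lt _ (by norm_num)
    have hs := pl_spec hv24 hw24
    unfold AdjN par
    rw [hs]
    have p1 := fun h => pl_lt' hv24 h
    have p2 := fun h => pl_lt' hw24 h
    have hv := Nat.div_add_mod v.val 24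
    have hw := Nat.div_add_mod w.val 24
    clear hs hvw hA hpar
    generalize v.val / 24 = i at *
    generalize v.val % 24 = j at *
    generalize w.val / 24 = i' at *
    generalize w.val % 24 = j' at *
    generalize v.val = a at *
    generalize w.val = b at *
    by_cases h1 : j = 0
    · by_cases h2 : j' = 0
      · simp only [h1, h2, if_true]
        omega
      · rw [if_pos h1, if_neg h2]
        have := p2 h2
        constructor
        · rintro (⟨h3, ⟨h4, h5⟩ | ⟨h4, h5⟩⟩ | ⟨h3, h4, h5⟩ | ⟨h3, h4, h5⟩)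
          · exact absurd h1 h4
          · right; exact ⟨by omega, by omega⟩
          · omega
          · left; exact ⟨by omega, by omega⟩
        · rintro (⟨h3, h4⟩ | ⟨h3, h4⟩)
          · right; right; exact ⟨by omega, h1, by omega⟩
          · left
            have h5 : i = i' := by omega
            exact ⟨h5, Or.inr ⟨h2, by omega⟩⟩
    · by_cases h2 : j' = 0
      · rw [if_neg h1, if_pos h2]
        have := p1 h1
        constructor
        · rintro (⟨h3, ⟨h4, h5⟩ | ⟨h4, h5⟩⟩ | ⟨h3, h4, h5⟩ | ⟨h3, h4, h5⟩)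
          · left; exact ⟨by omega, by omega⟩
          · exact absurd h2 h4
          · right; exact ⟨by omega, by omega⟩
          · omega
        · rintro (⟨h3, h4⟩ | ⟨h3, h4⟩)
          · left
            have h5 : i = i' := by omega
            exact ⟨h5, Or.inl ⟨h1, by omega⟩⟩
          · right; left; exact ⟨by omega, by omega, h2⟩
      · rw [if_neg h1, if_neg h2]
        have q1 := p1 h1
        have q2 := p2 h2
        constructor
        · rintro (⟨h3, ⟨h4, h5⟩ | ⟨h4, h5⟩⟩ | ⟨h3, h4, h5⟩ | ⟨h3, h4, h5⟩)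
          · left; exact ⟨by omega, by omega⟩
          · right; exact ⟨by omega, by omega⟩
          · exact absurd h5 h2
          · exact absurd h4 h1
        · rintro (⟨h3, h4⟩ | ⟨h3, h4⟩)
          · left
            have h5 : i = i' := by omega
            exact ⟨h5, Or.inl ⟨h1, by omega⟩⟩
          · left
            have h5 : i = i' := by omega
            exact ⟨h5, Or.inr ⟨h2, by omega⟩⟩

theorem card_nb_chk : ((List.range 24).all fun j =>
    Nat.ble (((List.range 24).filter fun t => Nat.testBit (nb j) t).length +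
      (if Nat.beq j 0 || Nat.beq j 3 then 1 else 0)) 3) = true := by decide +kernel

theorem chain_deg (k : ℕ) (v : Fin (24 * k)) : ((chain k).neighborSet v).ncard ≤ 3 := by
  have hv24 : v.val % 24 < 24 := Nat.mod_lt _ (by norm_num)
  have hc := card_nb_chk
  rw [List.all_eq_true] at hc
  have hc1 := hc (v.val % 24) (List.mem_range.mpr hv24)
  rw [Nat.ble_eq] at hc1
  -- the image of the neighbour set in ℕ
  set l : List ℕ := (List.range 24).filter (fun t => Nat.testBit (nb (v.val % 24)) t) with hl
  have himg : Set.ncard ((chain k).neighborSet v) =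
      Set.ncard ((fun w : Fin (24 * k) => w.val) '' ((chain k).neighborSet v)) :=
    (Set.ncard_image_of_injective _ Fin.val_injective).symm
  rw [himg]
  have hsub : (fun w : Fin (24 * k) => w.val) '' ((chain k).neighborSet v) ⊆
      (((l.map (fun t => 24 * (v.val / 24) + t)) ++
        (if (Nat.beq (v.val % 24) 0 || Nat.beq (v.val % 24) 3) = true then
          [if v.val % 24 = 0 then 24 * (v.val / 24 - 1) + 3 else 24 * (v.val / 24 + 1)]
          else [])).toFinset : Set ℕ) := by
    rintro x ⟨w, hw, rfl⟩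
    have hw' : AdjN v.val w.val := hw
    simp only [List.coe_toFinset, Set.mem_ofPred_eq, List.mem_append, List.mem_map]
    rcases hw' with ⟨h1, h2⟩ | ⟨h1, h2, h3⟩ | ⟨h1, h2, h3⟩
    · left
      refine ⟨w.val % 24, ?_, by omega⟩
      rw [hl, List.mem_filter, List.mem_range]
      exact ⟨Nat.mod_lt _ (by norm_num), h2⟩
    · right
      have hb : (Nat.beq (v.val % 24) 0 || Nat.beq (v.val % 24) 3) = true := by
        rw [h2]; rfl
      rw [if_pos hb, if_neg (by omega), List.mem_singleton]
      omega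
    · right
      have hb : (Nat.beq (v.val % 24) 0 || Nat.beq (v.val % 24) 3) = true := by
        rw [h2]; rfl
      rw [if_pos hb, if_pos h2, List.mem_singleton]
      omega
  refine (Set.ncard_le_ncard hsub (Set.toFinite _)).trans ?_
  rw [Set.ncard_coe_finset]
  refine (List.toFinset_card_le _).trans ?_
  rw [List.length_append, List.length_map]
  refine le_trans ?_ hc1
  split_ifs <;> simp

theorem chain_subcubic (k : ℕ) (hk : 0 < k) : SubcubicTree (chain k) :=
  ⟨chain_isTree k hk, chain_deg k⟩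

theorem fdim_ge (k : ℕ) (hk : 0 < k) : 25 * k ≤ 2 * fdim (24 * k) + 1 := by
  have hbdd : BddAbove {m | ∃ T : SimpleGraph (Fin (24 * k)), SubcubicTree T ∧ Idim T = m} := by
    refine ⟨24 * k, ?_⟩
    rintro m ⟨T, hT, rfl⟩
    have := play_le T (Fintype.card (Fin (24 * k))) true ∅
    simpa [Idim] using this
  have h1 : Idim (chain k) ≤ fdim (24 * k) := le_csSup hbdd ⟨chain k, chain_subcubic k hk, rfl⟩
  have h2 := lower_dim k
  omega

theorem fswell_ge (k : ℕ) (hk : 0 < k) : 25 * k ≤ 2 * fswell (24 * k) := by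
  have hbdd : BddAbove {m | ∃ T : SimpleGraph (Fin (24 * k)), SubcubicTree T ∧ Iswell T = m} := by
    refine ⟨24 * k, ?_⟩
    rintro m ⟨T, hT, rfl⟩
    have := play_le T (Fintype.card (Fin (24 * k))) false ∅
    simpa [Iswell] using this
  have h1 : Iswell (chain k) ≤ fswell (24 * k) :=
    le_csSup hbdd ⟨chain k, chain_subcubic k hk, rfl⟩
  have h2 := lower_swell k
  omega

theorem le_limsup_of_bound (f : ℕ → ℕ) (hf : ∀ n, f n ≤ n)
    (h : ∀ k, 0 < k → 25 * k ≤ 2 * f (24 * k) + 1) :
    25 / 48 ≤ Filter.limsup (fun n : ℕ => (f n : ℝ) / n) Filter.atTop := by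
  have hbdd : Filter.IsBoundedUnder (· ≤ ·) Filter.atTop (fun n : ℕ => (f n : ℝ) / n) := by
    refine Filter.isBoundedUnder_of ⟨1, fun n => ?_⟩
    rcases Nat.eq_zero_or_pos n with rfl | hn
    · simp
    · rw [div_le_one (by exact_mod_cast hn)]
      exact_mod_cast hf n
  apply le_of_forall_pos_le_add
  intro ε hε
  rw [← sub_le_iff_le_add]
  refine Filter.le_limsup_of_frequently_le ?_ hbdd
  rw [Filter.frequently_atTop]
  intro N
  obtain ⟨M, hM⟩ := exists_nat_gt (1 / ε)
  refine ⟨24 * (max N M + 1), by have := le_max_left N M; omega, ?_⟩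
  set k := max N M + 1 with hk
  have hk0 : 0 < k := by omega
  have h1 := h k hk0
  have hkM : M ≤ k := by have := le_max_right N M; omega
  have hkR : (0 : ℝ) < k := by exact_mod_cast hk0
  have h2 : (25 : ℝ) * k ≤ 2 * f (24 * k) + 1 := by exact_mod_cast h1
  have h3 : 1 / ε < k := lt_of_lt_of_le hM (by exact_mod_cast hkM)
  rw [div_lt_iff₀ hε] at h3
  push_cast
  rw [le_div_iff₀ (by positivity)]
  nlinarith

theorem fdim_le_self (n : ℕ) : fdim n ≤ n := by
  unfold fdim
  set S : Set ℕ := {k | ∃ T : SimpleGraph (Fin n), SubcubicTree T ∧ Idim T = k} with hS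
  have hb : ∀ m ∈ S, m ≤ n := by
    rintro m ⟨T, hT, rfl⟩
    have := play_le T (Fintype.card (Fin n)) true ∅
    simpa [Idim] using this
  by_cases hne : S.Nonempty
  · exact csSup_le hne hb
  · rw [Set.not_nonempty_iff_eq_empty] at hne
    rw [hne]; simp

theorem fswell_le_self (n : ℕ) : fswell n ≤ n := by
  unfold fswell
  set S : Set ℕ := {k | ∃ T : SimpleGraph (Fin n), SubcubicTree T ∧ Iswell T = k} with hS
  have hb : ∀ m ∈ S, m ≤ n := by
    rintro m ⟨T, hT, rfl⟩
    have := play_le T (Fintype.card (Fin n)) false ∅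
    simpa [Iswell] using this
  by_cases hne : S.Nonempty
  · exact csSup_le hne hb
  · rw [Set.not_nonempty_iff_eq_empty] at hne
    rw [hne]; simp

theorem cdim_ge : 25 / 48 ≤ cdim :=
  le_limsup_of_bound fdim fdim_le_self fdim_ge

theorem cswell_ge : 25 / 48 ≤ cswell :=
  le_limsup_of_bound fswell fswell_le_self (fun k hk => by have := fswell_ge k hk; omega)

end Pool.Agent.Helper60.Idg
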