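import Mathlib

/-!
The independent domination game (competition-independence game) on a finite graph, and the
asymptotic constants for subcubic trees.
-/

namespace Pool.Agent.Helper60.Idg

open scoped Classical

/-- The legal choices when `S` is the set of selected vertices: the vertices that are neither
selected nor adjacent to a selected vertex. -/
noncomputable def legal {V : Type} [Fintype V] (G : SimpleGraph V) (S : Finset V) : Finset V :=
  Finset.univ.filter (fun v => v ∉ S ∧ ∀ w ∈ S, ¬ G.Adj v w)

/-- The final number of selected vertices under optimal play, when the set of selected vertices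
is `S` and it is the turn of Diminisher (`dim = true`) or of Sweller (`dim = false`); the game is
followed for at most `k` more moves. -/
noncomputable def play {V : Type} [Fintype V] (G : SimpleGraph V) : ℕ → Bool → Finset V → ℕ
  | 0, _, S => S.card
  | k + 1, dim, S =>
      if h : (legal G S).Nonempty then
        if dim then (legal G S).inf' h (fun v => play G k false (insert v S))
        else (legal G S).sup' h (fun v => play G k true (insert v S))
      else S.card

/-- `I_d(G)`: Diminisher moves first (at most `|V|` moves can be made). -/
noncomputable def Idim {V : Type} [Fintype V] (G : SimpleGraph V) : ℕ :=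
  play G (Fintype.card V) true ∅

/-- `I_s(G)`: Sweller moves first. -/
noncomputable def Iswell {V : Type} [Fintype V] (G : SimpleGraph V) : ℕ :=
  play G (Fintype.card V) false ∅

/-- A subcubic tree: a tree in which every vertex has at most three neighbours. -/
def SubcubicTree {V : Type} (G : SimpleGraph V) : Prop :=
  G.IsTree ∧ ∀ v, (G.neighborSet v).ncard ≤ 3

/-- `f_d(n)`: the maximum of `I_d(T)` over the subcubic trees `T` of order `n`. -/
noncomputable def fdim (n : ℕ) : ℕ :=
  sSup {k | ∃ T : SimpleGraph (Fin n), SubcubicTree T ∧ Idim T = k}

/-- `f_s(n)`: the maximum of `I_s(T)` over the subcubic trees `T` of order `n`. -/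
noncomputable def fswell (n : ℕ) : ℕ :=
  sSup {k | ∃ T : SimpleGraph (Fin n), SubcubicTree T ∧ Iswell T = k}

/-- `c_d = limsup f_d(n) / n`. -/
noncomputable def cdim : ℝ := Filter.limsup (fun n : ℕ => (fdim n : ℝ) / n) Filter.atTop

/-- `c_s = limsup f_s(n) / n`. -/
noncomputable def cswell : ℝ := Filter.limsup (fun n : ℕ => (fswell n : ℝ) / n) Filter.atTop

end Pool.Agent.Helper60.Idg
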