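import Pool.Agent.Helper60.Idg.Pos

/-!
The residual game and the upper bound by the potential.
-/

namespace Pool.Agent.Helper60.Idg

open scoped Classical

variable {V : Type}

/-- the game on the set `A` of vertices that may still be selected -/
noncomputable def res (G : SimpleGraph V) : ℕ → Bool → Finset V → ℕ
  | 0, _, _ => 0
  | k + 1, dim, A =>
      if h : A.Nonempty then
        if dim then A.inf' h (fun v => 1 + res G k false (del G A v))
        else A.sup' h (fun v => 1 + res G k true (del G A v))
      else 0

theorem legal_insert [Fintype V] (G : SimpleGraph V) (S : Finset V) (v : V) :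
    legal G (insert v S) = del G (legal G S) v := by
  ext t
  simp only [legal, del, Finset.mem_filter, Finset.mem_univ, true_and, Finset.mem_insert, not_or,
    forall_eq_or_imp]
  constructor
  · rintro ⟨⟨h1, h2⟩, h3, h4⟩
    exact ⟨⟨h2, h4⟩, h1, fun h => h3 h.symm⟩
  · rintro ⟨⟨h2, h4⟩, h1, h3⟩
    exact ⟨⟨h1, h2⟩, fun h => h3 h.symm, h4⟩

theorem play_eq [Fintype V] (G : SimpleGraph V) : ∀ (k : ℕ) (dim : Bool) (S : Finset V),
    play G k dim S = S.card + res G k dim (legal G S) := by
  intro k
  induction k with
  | zero => intro dim S; simp [play, res]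
  | succ k ih =>
    intro dim S
    rw [play, res]
    by_cases h : (legal G S).Nonempty
    · rw [dif_pos h, dif_pos h]
      have hv : ∀ v ∈ legal G S, ∀ d, play G k d (insert v S) =
          S.card + (1 + res G k d (del G (legal G S) v)) := by
        intro v hv d
        rw [ih, legal_insert]
        have : v ∉ S := (Finset.mem_filter.mp hv).2.1
        rw [Finset.card_insert_of_notMem this]; ring
      cases dim with
      | true =>
        simp only [if_true]
        apply le_antisymm
        · obtain ⟨v, hvm, hve⟩ := Finset.exists_mem_eq_inf' h
            (fun v => 1 + res G k false (del G (legal G S) v))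
          rw [hve]
          refine (Finset.inf'_le _ hvm).trans ?_
          rw [hv v hvm]
        · obtain ⟨v, hvm, hve⟩ := Finset.exists_mem_eq_inf' h
            (fun v => play G k false (insert v S))
          rw [hve, hv v hvm]
          exact Nat.add_le_add_left (Finset.inf'_le (fun v => 1 + res G k false (del G (legal G S) v)) hvm) _
      | false =>
        simp only [Bool.false_eq_true, if_false]
        apply le_antisymm
        · obtain ⟨v, hvm, hve⟩ := Finset.exists_mem_eq_sup' h
            (fun v => play G k true (insert v S))
          rw [hve, hv v hvm]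
          exact Nat.add_le_add_left (Finset.le_sup' (fun v => 1 + res G k true (del G (legal G S) v)) hvm) _
        · obtain ⟨v, hvm, hve⟩ := Finset.exists_mem_eq_sup' h
            (fun v => 1 + res G k true (del G (legal G S) v))
          rw [hve, ← hv v hvm]
          exact Finset.le_sup' (fun v => play G k true (insert v S)) hvm
    · rw [dif_neg h, dif_neg h]; rfl

theorem legal_empty [Fintype V] (G : SimpleGraph V) : legal G ∅ = Finset.univ := by
  simp [legal]

theorem F_nonneg (k : ℕ) : 0 ≤ F k := by
  rw [F_eq]
  have := eps_cases k
  omega

theorem F_ge (k : ℕ) (hk : 1 ≤ k) : 11 ≤ F k := by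
  rw [F_eq]
  have := eps_cases k
  omega

theorem pot_nonneg (L : List B) : 0 ≤ pot L := by
  induction L with
  | nil => simp [pot]
  | cons b L ih => rw [pot_cons]; have := F_nonneg b.size; linarith

theorem F_ge' (k : ℕ) (hk : 1 ≤ k) : 20 ≤ F k := by
  rw [F_eq]
  have := eps_cases k
  omega

theorem del_card {G : SimpleGraph V} {A : Finset V} {v : V} (hv : v ∈ A) :
    (del G A v).card < A.card := by
  apply Finset.card_lt_card
  refine ⟨Finset.filter_subset _ _, ?_⟩
  intro h
  have := h hv
  simp [del] at this

theorem Pos.exists_ne {G : SimpleGraph V} {L : List B} {A : Finset V} (h : Pos G L A)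
    (hA : A.Nonempty) : ∃ b ∈ L, b ≠ .e := by
  obtain ⟨u, hu⟩ := hA
  obtain ⟨b, L0, o, S, A0, hp, hb, hL0, hd, ha, rfl, huS⟩ := h.exists_mem hu
  refine ⟨b, hp.symm.subset (List.mem_cons_self), ?_⟩
  rintro rfl
  cases hb
  simp at huS

/-- The upper bound, Diminisher to move. -/
theorem upper_dim (G : SimpleGraph V) : ∀ (n : ℕ) (A : Finset V) (L : List B), A.card ≤ n →
    Pos G L A → ∀ k, A.card ≤ k → (20 : ℤ) * (res G k true A : ℤ) ≤ pot L := by
  intro n
  induction n using Nat.strong_induction_on with
  | _ n ih =>
  intro A L hn hL k hk
  cases k with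
  | zero => simpa [res] using pot_nonneg L
  | succ k =>
    rw [res]
    by_cases hA : A.Nonempty
    · rw [dif_pos hA, if_pos rfl]
      obtain ⟨b, L0, v, hp, hv, hrep⟩ := greedy L (hL.exists_ne hA)
      obtain ⟨u, hu, hpos⟩ := (hL.perm hp).realize hv
      have hle : A.inf' hA (fun v => 1 + res G k false (del G A v)) ≤
          1 + res G k false (del G A u) := Finset.inf'_le _ hu
      have hpot : pot L = F b.size + pot L0 := by rw [pot_perm hp, pot_cons]
      have hcard := del_card (G := G) hu
      have hbne : 1 ≤ b.size := by
        cases b with
        | e => simp [vws] at hv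
        | n l r => rw [size_n]; omega
      suffices h : (20 : ℤ) * ((1 + res G k false (del G A u) : ℕ) : ℤ) ≤ pot L by
        have : ((A.inf' hA (fun v => 1 + res G k false (del G A v)) : ℕ) : ℤ) ≤
          ((1 + res G k false (del G A u) : ℕ) : ℤ) := by exact_mod_cast hle
        linarith
      have hpot0 := pot_nonneg L0
      have hF := F_ge' b.size hbne
      cases k with
      | zero =>
        simp only [res]
        push_cast
        linarith
      | succ k =>
        rw [res]
        by_cases hA1 : (del G A u).Nonempty
        · rw [dif_pos hA1, if_neg (by simp)]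
          obtain ⟨u', hu', hsup⟩ := Finset.exists_mem_eq_sup' hA1
            (fun v => 1 + res G k true (del G (del G A u) v))
          rw [hsup]
          obtain ⟨b', L1, v', hp', hv', hpos'⟩ := hpos.move hu'
          have hcard' := del_card (G := G) hu'
          have hIH := ih (del G (del G A u) u').card (by omega) (del G (del G A u) u')
            (kids v' ++ L1) le_rfl hpos' k (by omega)
          have hb' : b' ∈ kids v ++ L0 := hp'.symm.subset List.mem_cons_self
          have h40 := hrep b' hb' v' hv'
          have hpot1 : pot (kids v ++ L0) = F b'.size + pot L1 := by rw [pot_perm hp', pot_cons]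
          rw [pot_append, pot_kids] at hpot1 hIH
          push_cast
          linarith
        · rw [dif_neg hA1]
          push_cast
          linarith
    · rw [dif_neg hA]
      simpa using pot_nonneg L

/-- The upper bound, Sweller to move. -/
theorem upper_swell (G : SimpleGraph V) (A : Finset V) (L : List B)
    (hL : Pos G L A) (k : ℕ) (hk : A.card ≤ k) :
    (20 : ℤ) * (res G k false A : ℤ) ≤ pot L + 30 := by
  cases k with
  | zero => simp only [res]; have := pot_nonneg L; push_cast; linarith
  | succ k =>
    rw [res]
    by_cases hA : A.Nonempty
    · rw [dif_pos hA, if_neg (by simp)]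
      obtain ⟨u, hu, hsup⟩ := Finset.exists_mem_eq_sup' hA
        (fun v => 1 + res G k true (del G A v))
      rw [hsup]
      obtain ⟨b, L0, v, hp, hv, hpos⟩ := hL.move hu
      have hcard := del_card (G := G) hu
      have h1 := upper_dim G _ (del G A u) _ le_rfl hpos k (by omega)
      have hpot : pot L = F b.size + pot L0 := by rw [pot_perm hp, pot_cons]
      rw [pot_append, pot_kids] at h1
      have h2 := drop_ge b .e v hv
      rw [size_e, add_zero] at h2
      push_cast
      linarith
    · rw [dif_neg hA]
      have := pot_nonneg L
      push_cast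
      linarith

end Pool.Agent.Helper60.Idg
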