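import Pool.Agent.Helper60.Idg.Local

/-!
Views of a tree from its vertices, minimal cost, and the walk lemma: whatever vertex the
Sweller selects after a greedy move, the two moves together lower the potential by at least 40.
-/

namespace Pool.Agent.Helper60.Idg

open B

theorem cF_n (p q : B) : cF (.n p q) = F p.size + F q.size := rfl

theorem cF_e : cF .e = 0 := rfl

theorem size_n (p q : B) : (B.n p q).size = p.size + q.size + 1 := rfl

theorem size_e : (B.e).size = 0 := rfl

/-- `LB m c s b`: every vertex of the branch `b` has cost at least `m`, where the part of the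
tree above `b` has `s` vertices and costs `c` once its root is removed. -/
def LB (m : ℤ) : ℤ → ℕ → B → Prop
  | _, _, .e => True
  | c, s, .n l r => m ≤ cF l + cF r + c ∧ LB m (F r.size + F s) (r.size + s + 1) l ∧
      LB m (F l.size + F s) (l.size + s + 1) r

theorem LB.congr {m c c' : ℤ} {s s' : ℕ} {b : B} (h : LB m c s b) (hc : c = c') (hs : s = s') :
    LB m c' s' b := by
  subst hc; subst hs; exact h

/-- every vertex of the tree with a vertex having branches `x y z` has cost at least `m`. -/
def LBT (m : ℤ) (x y z : B) : Prop :=
  m ≤ cF x + cF y + cF z ∧ LB m (F y.size + F z.size) (y.size + z.size + 1) x ∧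
    LB m (F x.size + F z.size) (x.size + z.size + 1) y ∧
    LB m (F x.size + F y.size) (x.size + y.size + 1) z

theorem LBT.swap {m : ℤ} {x y z : B} (h : LBT m x y z) : LBT m y x z := by
  obtain ⟨h1, h2, h3, h4⟩ := h
  exact ⟨by linarith, h3, h2, h4.congr (by ring) (by ring)⟩

theorem LBT.rot {m : ℤ} {x y z : B} (h : LBT m x y z) : LBT m y z x := by
  obtain ⟨h1, h2, h3, h4⟩ := h
  exact ⟨by linarith, h3.congr (by ring) (by ring), h4.congr (by ring) (by ring), h2⟩

theorem LBT.shift {m : ℤ} {p q y z : B} (h : LBT m (.n p q) y z) : LBT m p q (.n y z) := by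
  obtain ⟨h1, ⟨h2, h3, h4⟩, h5, h6⟩ := h
  rw [cF_n] at h1
  rw [size_n] at h5 h6
  refine ⟨by rw [cF_n]; linarith, ?_, ?_, ?_, ?_, ?_⟩
  · rw [size_n]; exact h3
  · rw [size_n]; exact h4
  · linarith
  · exact h5.congr (by ring) (by ring)
  · exact h6.congr (by ring) (by ring)

theorem LBT.unshift {m : ℤ} {p q y z : B} (h : LBT m p q (.n y z)) : LBT m (.n p q) y z := by
  have := (h.rot.rot).shift
  exact this.rot.rot

/-- All views of the branch `b` under the part `up`: for each vertex the three branches. -/
def vws : B → B → List (B × B × B)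
  | _, .e => []
  | up, .n l r => (l, r, up) :: (vws (.n r up) l ++ vws (.n l up) r)

def cost (v : B × B × B) : ℤ := cF v.1 + cF v.2.1 + cF v.2.2

theorem LB_iff (m : ℤ) (b : B) : ∀ up : B, LB m (cF up) up.size b ↔ ∀ v ∈ vws up b, m ≤ cost v := by
  induction b with
  | e => intro up; simp [LB, vws]
  | n l r ihl ihr =>
    intro up
    have h1 := ihl (.n r up)
    have h2 := ihr (.n l up)
    rw [cF_n, size_n] at h1 h2
    simp only [LB, vws, List.mem_cons, List.mem_append, or_imp, forall_and,
      h1, h2, forall_eq]
    rfl

theorem LBT_iff (m : ℤ) (l r : B) : LBT m l r .e ↔ ∀ v ∈ vws .e (.n l r), m ≤ cost v := by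
  rw [← LB_iff m (.n l r) .e]
  simp only [LBT, LB, cF, B.size, and_true]

theorem core {l r U U' X : B} {m : ℤ}
    (hrel : U = U' ∨ (Ext X U U' ∧ 2 ≤ X.size ∧
      ¬ (l.size + r.size + U.size + 1 = 3 ∧ X.size = 3 ∧ beta X = -7)))
    (h : LBT m l r U') :
    40 ≤ (F (l.size + r.size + U'.size + 1) - m) +
      (F (l.size + r.size + U.size + 1) - cost (l, r, U)) := by
  obtain ⟨h1, h2, h3, h4⟩ := h
  -- translate to beta/gamma
  have hu : 11 + eps (l.size + r.size + U'.size + 1) + beta l + beta r + beta U' ≤
      F (l.size + r.size + U'.size + 1) - m := by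
    simp only [beta, eps]; push_cast; linarith
  have hl : l ≠ .e → 22 + eps (l.size + r.size + U'.size + 1) + gamma l - eps r.size -
      eps U'.size ≤ F (l.size + r.size + U'.size + 1) - m := by
    intro hne
    cases l with
    | e => exact absurd rfl hne
    | n p q =>
      obtain ⟨h2, -, -⟩ := h2
      simp only [gamma, beta, eps, B.size]; push_cast; linarith
  have hr : r ≠ .e → 22 + eps (l.size + r.size + U'.size + 1) + gamma r - eps l.size -
      eps U'.size ≤ F (l.size + r.size + U'.size + 1) - m := by
    intro hne
    cases r with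
    | e => exact absurd rfl hne
    | n p q =>
      obtain ⟨h3, -, -⟩ := h3
      simp only [gamma, beta, eps, B.size]; push_cast; linarith
  have hU : U' ≠ .e → 22 + eps (l.size + r.size + U'.size + 1) + gamma U' - eps l.size -
      eps r.size ≤ F (l.size + r.size + U'.size + 1) - m := by
    intro hne
    cases U' with
    | e => exact absurd rfl hne
    | n p q =>
      obtain ⟨h4, -, -⟩ := h4
      simp only [gamma, beta, eps, B.size]; push_cast; linarith
  have hgoal : F (l.size + r.size + U.size + 1) - cost (l, r, U) =
      11 + eps (l.size + r.size + U.size + 1) + beta l + beta r + beta U := by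
    simp only [beta, eps, cost]; push_cast; ring
  rw [hgoal]
  rcases hrel with rfl | ⟨hE, hX, hexc⟩
  · exact core_refl l r U _ hu hl hr hU
  · cases hE with
    | base =>
      have := core_base l r U' hX _ hu hl hr hU
      simpa [B.size, beta_e] using this
    | @step s V V' hE' =>
      exact core_step l r s V V' X hE' hX _ hexc hu hl hr (hU (by intro h; cases h))

theorem walk (X : B) (m : ℤ) : ∀ (b : B) (U U' : B),
    (U = U' ∨ (Ext X U U' ∧ 2 ≤ X.size ∧
      ¬ (b.size + U.size = 3 ∧ X.size = 3 ∧ beta X = -7))) →
    (∀ l r, b = .n l r → LBT m l r U') →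
    ∀ v ∈ vws U b, 40 ≤ (F (b.size + U'.size) - m) + (F (b.size + U.size) - cost v) := by
  intro b
  induction b with
  | e => intro U U' _ _ v hv; simp [vws] at hv
  | n l r ihl ihr =>
    intro U U' hrel hL v hv
    have hL0 := hL l r rfl
    have e1 : (B.n l r).size + U'.size = l.size + r.size + U'.size + 1 := by
      simp only [B.size]; ring
    have e2 : (B.n l r).size + U.size = l.size + r.size + U.size + 1 := by
      simp only [B.size]; ring
    simp only [vws, List.mem_cons, List.mem_append] at hv
    rcases hv with rfl | hv | hv
    · rw [e1, e2]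
      rw [e2] at hrel
      exact core hrel hL0
    · have h1 : (B.n l r).size + U'.size = l.size + (B.n r U').size := by
        simp only [B.size]; ring
      have h2 : (B.n l r).size + U.size = l.size + (B.n r U).size := by
        simp only [B.size]; ring
      rw [h1, h2]
      refine ihl (.n r U) (.n r U') ?_ ?_ v hv
      · rw [h2] at hrel
        rcases hrel with rfl | ⟨hE, hX, hexc⟩
        · exact Or.inl rfl
        · exact Or.inr ⟨Ext.step r hE, hX, hexc⟩
      · intro l1 l2 hl
        subst hl
        exact hL0.shift
    · have h1 : (B.n l r).size + U'.size = r.size + (B.n l U').size := by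
        simp only [B.size]; ring
      have h2 : (B.n l r).size + U.size = r.size + (B.n l U).size := by
        simp only [B.size]; ring
      rw [h1, h2]
      refine ihr (.n l U) (.n l U') ?_ ?_ v hv
      · rw [h2] at hrel
        rcases hrel with rfl | ⟨hE, hX, hexc⟩
        · exact Or.inl rfl
        · exact Or.inr ⟨Ext.step l hE, hX, hexc⟩
      · intro l1 l2 hl
        subst hl
        exact hL0.swap.shift

theorem LBT.views {m : ℤ} : ∀ (b up : B), (∀ l r, b = .n l r → LBT m l r up) →
    ∀ v ∈ vws up b, LBT m v.1 v.2.1 v.2.2 := by
  intro b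
  induction b with
  | e => intro up _ v hv; simp [vws] at hv
  | n l r ihl ihr =>
    intro up h v hv
    have h0 := h l r rfl
    simp only [vws, List.mem_cons, List.mem_append] at hv
    rcases hv with rfl | hv | hv
    · exact h0
    · refine ihl (.n r up) ?_ v hv
      intro l1 l2 hl
      subst hl
      exact h0.shift
    · refine ihr (.n l up) ?_ v hv
      intro l1 l2 hl
      subst hl
      exact h0.swap.shift

/-- children of a branch -/
def ch : B → List B
  | .e => []
  | .n p q => [p, q]

/-- components created by selecting a vertex with view `v` -/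
def kids (v : B × B × B) : List B := ch v.1 ++ (ch v.2.1 ++ ch v.2.2)

/-- potential of a position -/
def pot (L : List B) : ℤ := (L.map (fun b => F b.size)).sum

theorem pot_append (L L' : List B) : pot (L ++ L') = pot L + pot L' := by
  simp [pot]

theorem pot_cons (b : B) (L : List B) : pot (b :: L) = F b.size + pot L := by
  simp [pot]

theorem pot_nil : pot [] = 0 := rfl

theorem pot_perm {L L' : List B} (h : L.Perm L') : pot L = pot L' :=
  (h.map _).sum_eq

theorem pot_ch (b : B) : pot (ch b) = cF b := by
  cases b with
  | e => rfl
  | n p q => simp [ch, pot, cF]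

theorem pot_kids (v : B × B × B) : pot (kids v) = cost v := by
  rw [kids, pot_append, pot_append, pot_ch, pot_ch, pot_ch, cost]; ring

/-- components created by the greedy move: every reply there is fine -/
theorem reply_kid {p q y z : B} {m : ℤ} {St : ℕ} (hm : m = cost (.n p q, y, z))
    (hSt : St = p.size + (B.n q (.n y z)).size)
    (h : LBT m (.n p q) y z) : ∀ v' ∈ vws .e p, 40 ≤ (F St - m) + (F p.size - cost v') := by
  intro v' hv'
  have hX : 2 ≤ (B.n q (.n y z)).size := by simp only [size_n]; omega
  have hexc : ¬ (p.size + (B.e).size = 3 ∧ (B.n q (.n y z)).size = 3 ∧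
      beta (B.n q (.n y z)) = -7) := by
    rintro ⟨h1, h2, h3⟩
    rw [size_e, add_zero] at h1
    rw [beta_n] at h3
    have e1 := eps_cases q.size
    have e2 := eps_cases (B.n y z).size
    have hq : q.size = 1 := by omega
    have hV : (B.n y z).size = 1 := by omega
    rw [size_n] at hV
    have hy : y.size = 0 := by omega
    have hz : z.size = 0 := by omega
    have hy' := size_eq_zero hy
    have hz' := size_eq_zero hz
    subst hy'; subst hz'
    -- cost of the selected vertex
    have hc : cost (B.n p q, B.e, B.e) = 50 := by
      simp only [cost, cF_n, cF_e, h1, hq]; norm_num [F]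
    -- cost of the root of X
    cases p with
    | e => simp [B.size] at h1
    | n l r =>
      have h5 := h.shift.shift
      obtain ⟨-, -, -, h6⟩ := h5
      obtain ⟨h7, -, -⟩ := h6
      rw [size_n] at h1
      have hcq : cF q = 0 := by
        cases q with
        | e => rfl
        | n a b =>
          rw [size_n] at hq
          have ha : a.size = 0 := by omega
          have hb : b.size = 0 := by omega
          rw [cF_n, ha, hb]; simp [F]
      have hcV : cF (B.n B.e B.e) = 0 := by simp [cF, B.size, F]
      rw [hcq, hcV] at h7
      have hle : F l.size + F r.size ≤ 40 := by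
        rw [F_eq, F_eq]
        have e3 := eps_cases l.size
        have e4 := eps_cases r.size
        omega
      rw [hm, hc] at h7
      linarith
  have := walk (B.n q (.n y z)) m p .e (B.n q (.n y z))
    (Or.inr ⟨Ext.base, hX, hexc⟩) (by
      intro l r hp
      subst hp
      exact h.shift.shift) v' hv'
  rw [size_e, add_zero] at this
  rw [hSt]
  exact this

theorem cost_perm1 (x y z : B) : cost (x, y, z) = cost (y, x, z) := by
  simp only [cost]; ring

theorem cost_perm2 (x y z : B) : cost (x, y, z) = cost (z, y, x) := by
  simp only [cost]; ring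

theorem reply_kids {x y z : B} {m : ℤ} (hm : m = cost (x, y, z)) (h : LBT m x y z) :
    ∀ b' ∈ kids (x, y, z), ∀ v' ∈ vws .e b',
      40 ≤ (F (x.size + y.size + z.size + 1) - m) + (F b'.size - cost v') := by
  have hx : ∀ x y z : B, m = cost (x, y, z) → LBT m x y z → ∀ b' ∈ ch x, ∀ v' ∈ vws .e b',
      40 ≤ (F (x.size + y.size + z.size + 1) - m) + (F b'.size - cost v') := by
    intro x y z hm h b' hb' v' hv'
    cases x with
    | e => simp [ch] at hb'
    | n p q =>
      simp only [ch, List.mem_cons, List.not_mem_nil, or_false] at hb'
      rcases hb' with rfl | rfl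
      · refine reply_kid hm ?_ h v' hv'
        simp only [size_n]; ring
      · have hm' : m = cost (B.n b' p, y, z) := by
          rw [hm]; simp only [cost, cF_n]; ring
        have h' : LBT m (B.n b' p) y z := h.shift.swap.unshift
        refine reply_kid hm' ?_ h' v' hv'
        simp only [size_n]; ring
  intro b' hb' v' hv'
  simp only [kids, List.mem_append] at hb'
  rcases hb' with hb' | hb' | hb'
  · exact hx x y z hm h b' hb' v' hv'
  · have := hx y x z (by rw [hm, cost_perm1]) h.swap b' hb' v' hv'
    have e : x.size + y.size + z.size + 1 = y.size + x.size + z.size + 1 := by ring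
    rw [e]; exact this
  · have := hx z x y (by rw [hm]; simp only [cost]; ring) h.rot.rot b' hb' v' hv'
    have e : x.size + y.size + z.size + 1 = z.size + x.size + y.size + 1 := by ring
    rw [e]; exact this

theorem vws_size : ∀ (b up : B), ∀ v ∈ vws up b,
    v.1.size + v.2.1.size + v.2.2.size + 1 = b.size + up.size := by
  intro b
  induction b with
  | e => intro up v hv; simp [vws] at hv
  | n l r ihl ihr =>
    intro up v hv
    simp only [vws, List.mem_cons, List.mem_append] at hv
    rcases hv with rfl | hv | hv
    · simp only [size_n]; ring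
    · rw [ihl _ v hv]; simp only [size_n]; ring
    · rw [ihr _ v hv]; simp only [size_n]; ring

theorem exists_max {α : Type} (f : α → ℤ) : ∀ (L : List α), L ≠ [] →
    ∃ a ∈ L, ∀ a' ∈ L, f a' ≤ f a := by
  intro L
  induction L with
  | nil => intro h; exact absurd rfl h
  | cons a L ih =>
    intro _
    by_cases hL : L = []
    · subst hL; exact ⟨a, by simp, by simp⟩
    · obtain ⟨c, hc, hmax⟩ := ih hL
      by_cases hac : f a ≤ f c
      · refine ⟨c, List.mem_cons_of_mem _ hc, ?_⟩
        intro a' ha'
        rcases List.mem_cons.mp ha' with rfl | h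
        · exact hac
        · exact hmax a' h
      · refine ⟨a, List.mem_cons_self, ?_⟩
        intro a' ha'
        rcases List.mem_cons.mp ha' with rfl | h
        · exact le_refl _
        · exact (hmax a' h).trans (le_of_lt (not_le.mp hac))

/-- The greedy strategy. -/
theorem greedy (L : List B) (hL : ∃ b ∈ L, b ≠ .e) :
    ∃ b L0 v, L.Perm (b :: L0) ∧ v ∈ vws .e b ∧
      ∀ b' ∈ kids v ++ L0, ∀ v' ∈ vws .e b',
        40 ≤ (F b.size - cost v) + (F b'.size - cost v') := by
  classical
  set O : List (B × (B × B × B)) := L.flatMap (fun b => (vws .e b).map (fun v => (b, v))) with hO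
  have hmem : ∀ o : B × (B × B × B), o ∈ O ↔ o.1 ∈ L ∧ o.2 ∈ vws .e o.1 := by
    intro o
    rw [hO, List.mem_flatMap]
    constructor
    · rintro ⟨b, hb, ho⟩
      rw [List.mem_map] at ho
      obtain ⟨v, hv, rfl⟩ := ho
      exact ⟨hb, hv⟩
    · rintro ⟨h1, h2⟩
      exact ⟨o.1, h1, List.mem_map.mpr ⟨o.2, h2, rfl⟩⟩
  have hne : O ≠ [] := by
    obtain ⟨b, hb, hbe⟩ := hL
    cases b with
    | e => exact absurd rfl hbe
    | n l r =>
      intro hO'
      have : ((B.n l r), (l, r, B.e)) ∈ O := (hmem _).mpr ⟨hb, by simp [vws]⟩
      rw [hO'] at this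
      simp at this
  obtain ⟨⟨b, v⟩, ho, hmax⟩ := exists_max (fun o : B × (B × B × B) => F o.1.size - cost o.2) O hne
  obtain ⟨hb, hv⟩ := (hmem _).mp ho
  simp only at hb hv hmax
  obtain ⟨L1, L2, rfl⟩ := List.append_of_mem hb
  refine ⟨b, L1 ++ L2, v, List.perm_middle, hv, ?_⟩
  intro b' hb' v' hv'
  rw [List.mem_append] at hb'
  rcases hb' with hb' | hb'
  · -- new component
    have hroot : ∀ l r, b = .n l r → LBT (cost v) l r .e := by
      intro l r hbr
      subst hbr
      rw [LBT_iff]
      intro w hw
      have := hmax ((B.n l r), w) ((hmem _).mpr ⟨hb, hw⟩)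
      simp only at this
      linarith
    have hLBT := LBT.views b .e hroot v hv
    have hs := vws_size b .e v hv
    rw [size_e, add_zero] at hs
    have := reply_kids (x := v.1) (y := v.2.1) (z := v.2.2) (m := cost v) rfl hLBT b' hb' v' hv'
    rw [hs] at this
    exact this
  · -- untouched component
    have hb'' : b' ∈ L1 ++ b :: L2 := by
      rw [List.mem_append] at hb' ⊢
      rcases hb' with h | h
      · exact Or.inl h
      · exact Or.inr (List.mem_cons_of_mem _ h)
    have h1 : ∀ l r, b' = .n l r → LBT (F b'.size - (F b.size - cost v)) l r .e := by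
      intro l r hbr
      subst hbr
      rw [LBT_iff]
      intro w hw
      have := hmax ((B.n l r), w) ((hmem _).mpr ⟨hb'', hw⟩)
      simp only at this
      linarith
    have := walk .e (F b'.size - (F b.size - cost v)) b' .e .e (Or.inl rfl) h1 v' hv'
    rw [size_e, add_zero] at this
    linarith

/-- every single move lowers the potential by at least `-10`. -/
theorem drop_ge (b : B) : ∀ (up : B), ∀ v ∈ vws up b, -10 ≤ F (b.size + up.size) - cost v := by
  induction b with
  | e => intro up v hv; simp [vws] at hv
  | n l r ihl ihr =>
    intro up v hv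
    simp only [vws, List.mem_cons, List.mem_append] at hv
    rcases hv with rfl | hv | hv
    · have h : F ((B.n l r).size + up.size) - cost (l, r, up) =
          11 + eps (l.size + r.size + up.size + 1) + beta l + beta r + beta up := by
        have : (B.n l r).size + up.size = l.size + r.size + up.size + 1 := by
          simp only [size_n]; ring
        rw [this]
        simp only [beta, eps, cost]; push_cast; ring
      rw [h]
      have e1 := eps_cases (l.size + r.size + up.size + 1)
      have h1 := beta_facts l
      have h2 := beta_facts r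
      have h3 := beta_facts up
      omega
    · have h1 : (B.n l r).size + up.size = l.size + (B.n r up).size := by
        simp only [size_n]; ring
      rw [h1]; exact ihl _ v hv
    · have h1 : (B.n l r).size + up.size = r.size + (B.n l up).size := by
        simp only [size_n]; ring
      rw [h1]; exact ihr _ v hv

end Pool.Agent.Helper60.Idg
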