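import Pool.Agent.Helper60.Idg.Defs
import Pool.Agent.Helper60.Idg.Walk

/-!
Representation of vertex sets of a graph by rooted branches.
-/

namespace Pool.Agent.Helper60.Idg

open scoped Classical

variable {V : Type} (G : SimpleGraph V)

/-- `Br G b o S`: the set `S` induces a rooted tree of shape `b` with root `o` -/
inductive Br : B → Option V → Finset V → Prop
  | e : Br .e none ∅
  | n {l r : B} {o1 o2 : Option V} {S1 S2 : Finset V} (w : V) :
      Br l o1 S1 → Br r o2 S2 → w ∉ S1 → w ∉ S2 → Disjoint S1 S2 →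
      (∀ x ∈ S1, G.Adj w x ↔ o1 = some x) → (∀ x ∈ S2, G.Adj w x ↔ o2 = some x) →
      (∀ x ∈ S1, ∀ y ∈ S2, ¬ G.Adj x y) → Br (.n l r) (some w) (insert w (S1 ∪ S2))

variable {G}

theorem Br.root_mem {b : B} {o : Option V} {S : Finset V} (h : Br G b o S) :
    ∀ w, o = some w → w ∈ S := by
  intro w hw
  cases h with
  | e => simp at hw
  | n w' _ _ _ _ _ _ _ _ =>
    simp only [Option.some.injEq] at hw
    subst hw
    exact Finset.mem_insert_self _ _

theorem Br.card {b : B} {o : Option V} {S : Finset V} (h : Br G b o S) : S.card = b.size := by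
  induction h with
  | e => rfl
  | n w h1 h2 hw1 hw2 hd _ _ _ ih1 ih2 =>
    rw [Finset.card_insert_of_notMem (by simp [hw1, hw2]), Finset.card_union_of_disjoint hd,
      ih1, ih2, size_n]

variable (G)

/-- `V3 G x y z u T1 T2 T3`: `u` is joined to three branches `x, y, z` on the sets `T1, T2, T3`. -/
structure V3 (x y z : B) (u : V) (T1 T2 T3 : Finset V) : Prop where
  ex : ∃ o1 o2 o3, Br G x o1 T1 ∧ Br G y o2 T2 ∧ Br G z o3 T3 ∧
    (∀ t ∈ T1, G.Adj u t ↔ o1 = some t) ∧ (∀ t ∈ T2, G.Adj u t ↔ o2 = some t) ∧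
    (∀ t ∈ T3, G.Adj u t ↔ o3 = some t)
  n1 : u ∉ T1
  n2 : u ∉ T2
  n3 : u ∉ T3
  d12 : Disjoint T1 T2
  d13 : Disjoint T1 T3
  d23 : Disjoint T2 T3
  a12 : ∀ s ∈ T1, ∀ t ∈ T2, ¬ G.Adj s t
  a13 : ∀ s ∈ T1, ∀ t ∈ T3, ¬ G.Adj s t
  a23 : ∀ s ∈ T2, ∀ t ∈ T3, ¬ G.Adj s t

variable {G}

noncomputable def full (u : V) (T1 T2 T3 : Finset V) : Finset V := insert u (T1 ∪ (T2 ∪ T3))

theorem V3.swap {x y z : B} {u : V} {T1 T2 T3 : Finset V} (h : V3 G x y z u T1 T2 T3) :
    V3 G y x z u T2 T1 T3 := by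
  obtain ⟨o1, o2, o3, h1, h2, h3, h4, h5, h6⟩ := h.ex
  exact ⟨⟨o2, o1, o3, h2, h1, h3, h5, h4, h6⟩, h.n2, h.n1, h.n3, h.d12.symm, h.d23, h.d13,
    fun s hs t ht hadj => h.a12 t ht s hs hadj.symm, h.a23, h.a13⟩

theorem V3.rot {x y z : B} {u : V} {T1 T2 T3 : Finset V} (h : V3 G x y z u T1 T2 T3) :
    V3 G y z x u T2 T3 T1 := by
  obtain ⟨o1, o2, o3, h1, h2, h3, h4, h5, h6⟩ := h.ex
  exact ⟨⟨o2, o3, o1, h2, h3, h1, h5, h6, h4⟩, h.n2, h.n3, h.n1, h.d23, h.d12.symm, h.d13.symm,
    h.a23, fun s hs t ht hadj => h.a12 t ht s hs hadj.symm,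
    fun s hs t ht hadj => h.a13 t ht s hs hadj.symm⟩

theorem full_swap (u : V) (T1 T2 T3 : Finset V) : full u T2 T1 T3 = full u T1 T2 T3 := by
  unfold full
  congr 1
  rw [← Finset.union_assoc, ← Finset.union_assoc, Finset.union_comm T2 T1]

theorem full_rot (u : V) (T1 T2 T3 : Finset V) : full u T2 T3 T1 = full u T1 T2 T3 := by
  unfold full
  congr 1
  rw [← Finset.union_assoc, Finset.union_comm (T2 ∪ T3) T1]

/-- moving the view from `u` to the root of its first branch -/
theorem V3.shift {p q y z : B} {u : V} {T1 T2 T3 : Finset V}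
    (h : V3 G (.n p q) y z u T1 T2 T3) :
    ∃ w Sp Sq, T1 = insert w (Sp ∪ Sq) ∧ w ∉ Sp ∧ w ∉ Sq ∧
      V3 G p q (.n y z) w Sp Sq (insert u (T2 ∪ T3)) ∧
      full w Sp Sq (insert u (T2 ∪ T3)) = full u T1 T2 T3 := by
  obtain ⟨o1, o2, o3, h1, h2, h3, h4, h5, h6⟩ := h.ex
  have hn1 := h.n1
  have hn2 := h.n2
  have hn3 := h.n3
  have hd12 := h.d12
  have hd13 := h.d13
  have hd23 := h.d23
  have ha12 := h.a12
  have ha13 := h.a13
  have ha23 := h.a23
  cases h1 with
  | @n _ _ op oq Sp Sq w hp hq hwp hwq hdpq hap haq hpq =>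
    refine ⟨w, Sp, Sq, rfl, hwp, hwq, ?_, ?_⟩
    · have huw : G.Adj u w := (h4 w (Finset.mem_insert_self _ _)).mpr rfl
      have hup : ∀ t ∈ Sp, ¬ G.Adj u t := by
        intro t ht hadj
        have := (h4 t (by simp [ht])).mp hadj
        simp only [Option.some.injEq] at this
        subst this
        exact hwp ht
      have huq : ∀ t ∈ Sq, ¬ G.Adj u t := by
        intro t ht hadj
        have := (h4 t (by simp [ht])).mp hadj
        simp only [Option.some.injEq] at this
        subst this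
        exact hwq ht
      have huw' : u ≠ w := by
        intro he; subst he; exact hn1 (Finset.mem_insert_self _ _)
      refine ⟨⟨op, oq, some u, hp, hq, Br.n u h2 h3 hn2 hn3 hd23 h5 h6 ha23, hap, haq, ?_⟩,
        hwp, hwq, ?_, hdpq, ?_, ?_, hpq, ?_, ?_⟩
      · intro t ht
        rw [Finset.mem_insert] at ht
        constructor
        · intro hadj
          rcases ht with rfl | ht
          · rfl
          · exfalso
            rw [Finset.mem_union] at ht
            rcases ht with ht | ht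
            · exact ha12 w (Finset.mem_insert_self _ _) t ht hadj
            · exact ha13 w (Finset.mem_insert_self _ _) t ht hadj
        · intro he
          simp only [Option.some.injEq] at he
          subst he
          exact huw.symm
      · rw [Finset.mem_insert, not_or, Finset.mem_union, not_or]
        refine ⟨fun he => huw' he.symm, ?_, ?_⟩
        · intro hw2
          exact (Finset.disjoint_left.mp hd12) (Finset.mem_insert_self _ _) hw2
        · intro hw3
          exact (Finset.disjoint_left.mp hd13) (Finset.mem_insert_self _ _) hw3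
      · rw [Finset.disjoint_left]
        intro t ht ht'
        rw [Finset.mem_insert, Finset.mem_union] at ht'
        rcases ht' with rfl | ht' | ht'
        · exact hn1 (by simp [ht])
        · exact (Finset.disjoint_left.mp hd12) (by simp [ht]) ht'
        · exact (Finset.disjoint_left.mp hd13) (by simp [ht]) ht'
      · rw [Finset.disjoint_left]
        intro t ht ht'
        rw [Finset.mem_insert, Finset.mem_union] at ht'
        rcases ht' with rfl | ht' | ht'
        · exact hn1 (by simp [ht])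
        · exact (Finset.disjoint_left.mp hd12) (by simp [ht]) ht'
        · exact (Finset.disjoint_left.mp hd13) (by simp [ht]) ht'
      · intro s hs t ht hadj
        rw [Finset.mem_insert, Finset.mem_union] at ht
        rcases ht with rfl | ht | ht
        · exact hup s hs hadj.symm
        · exact ha12 s (by simp [hs]) t ht hadj
        · exact ha13 s (by simp [hs]) t ht hadj
      · intro s hs t ht hadj
        rw [Finset.mem_insert, Finset.mem_union] at ht
        rcases ht with rfl | ht | ht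
        · exact huq s hs hadj.symm
        · exact ha12 s (by simp [hs]) t ht hadj
        · exact ha13 s (by simp [hs]) t ht hadj
    · unfold full
      ext t
      simp only [Finset.mem_insert, Finset.mem_union]
      tauto

/-- every vertex of a branch has a view -/
theorem cover : ∀ (b up : B) (l r : B), b = .n l r → ∀ (w : V) (S1 S2 S3 : Finset V),
    V3 G l r up w S1 S2 S3 → ∀ u ∈ insert w (S1 ∪ S2), ∃ v ∈ vws up b, ∃ T1 T2 T3,
      V3 G v.1 v.2.1 v.2.2 u T1 T2 T3 ∧ full u T1 T2 T3 = full w S1 S2 S3 := by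
  intro b
  induction b with
  | e => intro up l r h; cases h
  | n l r ihl ihr =>
    intro up l' r' h w S1 S2 S3 hV u hu
    simp only [B.n.injEq] at h
    obtain ⟨rfl, rfl⟩ := h
    rw [Finset.mem_insert, Finset.mem_union] at hu
    rcases hu with rfl | hu | hu
    · exact ⟨(l, r, up), by simp [vws], S1, S2, S3, hV, rfl⟩
    · cases l with
      | e =>
        obtain ⟨o1, o2, o3, h1, -⟩ := hV.ex
        cases h1
        simp at hu
      | n l1 l2 =>
        obtain ⟨w1, Sp, Sq, hS1, hw1, hw2, hV', hfull⟩ := hV.shift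
        rw [hS1] at hu
        obtain ⟨v, hv, T1, T2, T3, hvV, hvf⟩ := ihl (.n r up) l1 l2 rfl w1 Sp Sq _ hV' u hu
        refine ⟨v, ?_, T1, T2, T3, hvV, hvf.trans hfull⟩
        simp only [vws, List.mem_cons, List.mem_append] at hv ⊢
        exact Or.inr (Or.inl hv)
    · cases r with
      | e =>
        obtain ⟨o1, o2, o3, h1, h2, -⟩ := hV.ex
        cases h2
        simp at hu
      | n r1 r2 =>
        obtain ⟨w1, Sp, Sq, hS1, hw1, hw2, hV', hfull⟩ := hV.swap.shift
        rw [hS1] at hu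
        obtain ⟨v, hv, T1, T2, T3, hvV, hvf⟩ := ihr (.n l up) r1 r2 rfl w1 Sp Sq _ hV' u hu
        refine ⟨v, ?_, T1, T2, T3, hvV, (hvf.trans hfull).trans (full_swap _ _ _ _)⟩
        simp only [vws, List.mem_cons, List.mem_append] at hv ⊢
        exact Or.inr (Or.inr hv)

/-- every view is the view of some vertex -/
theorem realize : ∀ (b up : B) (l r : B), b = .n l r → ∀ (w : V) (S1 S2 S3 : Finset V),
    V3 G l r up w S1 S2 S3 → ∀ v ∈ vws up b, ∃ u ∈ insert w (S1 ∪ S2), ∃ T1 T2 T3,
      V3 G v.1 v.2.1 v.2.2 u T1 T2 T3 ∧ full u T1 T2 T3 = full w S1 S2 S3 := by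
  intro b
  induction b with
  | e => intro up l r h; cases h
  | n l r ihl ihr =>
    intro up l' r' h w S1 S2 S3 hV v hv
    simp only [B.n.injEq] at h
    obtain ⟨rfl, rfl⟩ := h
    rw [vws, List.mem_cons, List.mem_append] at hv
    rcases hv with rfl | hv | hv
    · exact ⟨w, by simp, S1, S2, S3, hV, rfl⟩
    · cases l with
      | e => simp [vws] at hv
      | n l1 l2 =>
        obtain ⟨w1, Sp, Sq, hS1, hw1, hw2, hV', hfull⟩ := hV.shift
        obtain ⟨u, hu, T1, T2, T3, hvV, hvf⟩ := ihl (.n r up) l1 l2 rfl w1 Sp Sq _ hV' v hv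
        refine ⟨u, ?_, T1, T2, T3, hvV, hvf.trans hfull⟩
        rw [Finset.mem_insert, Finset.mem_union, hS1]
        exact Or.inr (Or.inl hu)
    · cases r with
      | e => simp [vws] at hv
      | n r1 r2 =>
        obtain ⟨w1, Sp, Sq, hS1, hw1, hw2, hV', hfull⟩ := hV.swap.shift
        obtain ⟨u, hu, T1, T2, T3, hvV, hvf⟩ := ihr (.n l up) r1 r2 rfl w1 Sp Sq _ hV' v hv
        refine ⟨u, ?_, T1, T2, T3, hvV, (hvf.trans hfull).trans (full_swap _ _ _ _)⟩
        rw [Finset.mem_insert, Finset.mem_union, hS1]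
        exact Or.inr (Or.inr hu)

end Pool.Agent.Helper60.Idg
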