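import Mathlib

/-!
Local lemma for the potential `F` of the Diminisher's greedy strategy in the independent
domination game on subcubic trees.
-/

namespace Pool.Agent.Helper60.Idg

/-- Rooted branches: `e` is the empty branch, `n l r` a root with two (possibly empty)
child branches. -/
inductive B where
  | e : B
  | n : B → B → B

namespace B

def size : B → ℕ
  | e => 0
  | n l r => l.size + r.size + 1

end B

open B

/-- potential of a component with `k` vertices, in units of `1/20`. -/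
def F (k : ℕ) : ℤ := if k = 1 then 20 else if k = 3 then 30 else 11 * k

/-- total potential of the two child branches. -/
def cF : B → ℤ
  | .e => 0
  | .n p q => F p.size + F q.size

def eps (k : ℕ) : ℤ := F k - 11 * k

theorem eps_cases (k : ℕ) : (k = 1 ∧ eps k = 9) ∨ (k = 3 ∧ eps k = -3) ∨
    (k ≠ 1 ∧ k ≠ 3 ∧ eps k = 0) := by
  unfold eps F
  by_cases h1 : k = 1
  · left; subst h1; norm_num
  · by_cases h3 : k = 3
    · right; left; subst h3; norm_num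
    · right; right; refine ⟨h1, h3, ?_⟩; simp [h1, h3]

theorem F_eq (k : ℕ) : F k = 11 * k + eps k := by unfold eps; ring

/-- `beta b = 11 |b| - cF b` -/
def beta (b : B) : ℤ := 11 * b.size - cF b

/-- `gamma (n p q) = beta p + beta q` -/
def gamma : B → ℤ
  | .e => 0
  | .n p q => beta p + beta q

theorem beta_e : beta .e = 0 := by simp [beta, cF, B.size]

theorem beta_n (p q : B) : beta (.n p q) = 11 - eps p.size - eps q.size := by
  simp only [beta, cF, B.size, F_eq]; push_cast; ring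

theorem gamma_n (p q : B) : gamma (.n p q) = beta p + beta q := rfl

theorem size_eq_zero {b : B} (h : b.size = 0) : b = .e := by
  cases b with
  | e => rfl
  | n p q => simp [B.size] at h

theorem eps_zero : eps 0 = 0 := by simp [eps, F]

theorem beta_facts (p : B) :
    (p = .e ∧ p.size = 0 ∧ beta p = 0) ∨ (p ≠ .e ∧ p.size = 1 ∧ beta p = 11) ∨
    (p ≠ .e ∧ p.size = 3 ∧ beta p = -7) ∨ (p ≠ .e ∧ 2 ≤ p.size ∧ 2 ≤ beta p) := by
  cases p with
  | e => left; exact ⟨rfl, rfl, beta_e⟩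
  | n l r =>
    right
    have hl := eps_cases l.size
    have hr := eps_cases r.size
    have hs : (B.n l r).size = l.size + r.size + 1 := rfl
    have hne : (B.n l r) ≠ .e := by intro h; cases h
    rw [beta_n, hs]
    simp only [hne, ne_eq, not_false_eq_true, true_and]
    have h0 := eps_zero
    omega

/-- class description of a branch: disjunction of linear facts -/
theorem cls (b : B) :
    (b = .e ∧ b.size = 0 ∧ beta b = 0 ∧ eps b.size = 0) ∨
    (b ≠ .e ∧ b.size = 1 ∧ beta b = 11 ∧ gamma b = 0 ∧ eps b.size = 9) ∨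
    (b ≠ .e ∧ b.size = 2 ∧ beta b = 2 ∧ gamma b = 11 ∧ eps b.size = 0) ∨
    (b ≠ .e ∧ b.size = 3 ∧ beta b = -7 ∧ gamma b = 22 ∧ eps b.size = -3) ∨
    (b ≠ .e ∧ 4 ≤ b.size ∧ 2 ≤ beta b ∧ 13 ≤ gamma b ∧ eps b.size = 0) ∨
    (b ≠ .e ∧ 5 ≤ b.size ∧ 5 ≤ beta b ∧ 4 ≤ gamma b ∧ eps b.size = 0) ∨
    (b ≠ .e ∧ 3 ≤ b.size ∧ 11 ≤ beta b ∧ -14 ≤ gamma b ∧ eps b.size ≤ 0) := by
  cases b with
  | e => left; exact ⟨rfl, rfl, beta_e, eps_zero⟩
  | n p q =>
    right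
    have hp := eps_cases p.size
    have hq := eps_cases q.size
    have hb := eps_cases (p.size + q.size + 1)
    have hs : (B.n p q).size = p.size + q.size + 1 := rfl
    have hne : (B.n p q) ≠ .e := by intro h; cases h
    rw [beta_n, hs, gamma_n]
    simp only [hne, ne_eq, not_false_eq_true, true_and]
    have h0 := eps_zero
    rcases beta_facts p with ⟨-, h1, h2⟩ | ⟨-, h1, h2⟩ | ⟨-, h1, h2⟩ | ⟨-, h1, h2⟩ <;>
    rcases beta_facts q with ⟨-, h3, h4⟩ | ⟨-, h3, h4⟩ | ⟨-, h3, h4⟩ | ⟨-, h3, h4⟩ <;>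
    rcases hp with ⟨hp, hp'⟩ | ⟨hp, hp'⟩ | ⟨hp, hp', hp''⟩ <;>
    rcases hq with ⟨hq, hq'⟩ | ⟨hq, hq'⟩ | ⟨hq, hq', hq''⟩ <;>
    first
      | (exfalso; omega)
      | (left; refine ⟨?_, ?_, ?_, ?_⟩ <;> omega)
      | (right; left; refine ⟨?_, ?_, ?_, ?_⟩ <;> omega)
      | (right; right; left; refine ⟨?_, ?_, ?_, ?_⟩ <;> omega)
      | (right; right; right; left; refine ⟨?_, ?_, ?_, ?_⟩ <;> omega)
      | (right; right; right; right; left; refine ⟨?_, ?_, ?_, ?_⟩ <;> omega)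
      | (right; right; right; right; right; refine ⟨?_, ?_, ?_, ?_⟩ <;> omega)

/-- `Ext X U U'`: `U'` arises from `U` by hanging `X` at the end of the right spine. -/
inductive Ext (X : B) : B → B → Prop
  | base : Ext X .e X
  | step (r : B) {U U' : B} : Ext X U U' → Ext X (.n r U) (.n r U')

theorem Ext.size {X U U' : B} (h : Ext X U U') : U'.size = U.size + X.size := by
  induction h with
  | base => simp [B.size]
  | step r _ ih => simp only [B.size, ih]; ring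

theorem Ext.ne {X U U' : B} (h : Ext X U U') (hX : 2 ≤ X.size) : U' ≠ .e := by
  intro he
  have := h.size
  subst he
  simp [B.size] at this
  omega

theorem pair_step {X s V V' : B} (h : Ext X V V') (hX : 2 ≤ X.size) :
    ((B.n s V).size = 1 ∧ beta (.n s V) = 11 ∧ 11 ≤ beta (.n s V') ∧ -7 ≤ gamma (.n s V')) ∨
    ((B.n s V).size = 2 ∧ beta (.n s V) = 2 ∧ 11 ≤ beta (.n s V') ∧ 11 ≤ gamma (.n s V')) ∨
    (3 ≤ (B.n s V).size ∧ 11 ≤ beta (.n s V) ∧ 11 ≤ beta (.n s V') ∧ -14 ≤ gamma (.n s V')) ∨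
    ((B.n s V).size = 2 ∧ beta (.n s V) = 2 ∧ beta (.n s V') = 5 ∧ gamma (.n s V') = 4 ∧
      X.size = 3 ∧ beta X = -7) ∨
    ((B.n s V).size = 2 ∧ beta (.n s V) = 2 ∧ 2 ≤ beta (.n s V') ∧ 13 ≤ gamma (.n s V')) ∨
    ((B.n s V).size = 3 ∧ beta (.n s V) = -7 ∧ 2 ≤ beta (.n s V') ∧ 22 ≤ gamma (.n s V')) ∨
    (4 ≤ (B.n s V).size ∧ 2 ≤ beta (.n s V) ∧ 2 ≤ beta (.n s V') ∧ 13 ≤ gamma (.n s V')) ∨
    (4 ≤ (B.n s V).size ∧ 5 ≤ beta (.n s V) ∧ 11 ≤ beta (.n s V') ∧ 4 ≤ gamma (.n s V')) ∨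
    (4 ≤ (B.n s V).size ∧ 2 ≤ beta (.n s V) ∧ 11 ≤ beta (.n s V') ∧ 13 ≤ gamma (.n s V')) := by
  have hes := eps_cases s.size
  have h0 := eps_zero
  have hb1 := beta_n s V
  have hb2 := beta_n s V'
  have hg := gamma_n s V'
  have hs1 : (B.n s V).size = s.size + V.size + 1 := rfl
  have hne := h.ne hX
  have hsz := h.size
  have heV' := eps_cases V'.size
  -- information on V, V'
  have key : (V.size = 0 ∧ V'.size = X.size ∧ beta V' = beta X ∧ eps V.size = 0) ∨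
      (V.size = 1 ∧ 11 ≤ beta V' ∧ eps V.size = 9) ∨
      (2 ≤ V.size ∧ 2 ≤ beta V' ∧ eps V.size ≤ 0) := by
    cases h with
    | base => left; simp [B.size, eps_zero]
    | @step r W W' h' =>
      right
      have hW := h'.size
      have hb := beta_n r W'
      have hv : (B.n r W).size = r.size + W.size + 1 := rfl
      have hv' : (B.n r W').size = r.size + W'.size + 1 := rfl
      have e1 := eps_cases (B.n r W).size
      have e2 := eps_cases r.size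
      have e3 := eps_cases W'.size
      omega
  have hbX := beta_facts X
  have hbs := beta_facts s
  have hbV := beta_facts V'
  rw [hb1, hb2, hg, hs1]
  rcases hbs with ⟨-, h1, h2⟩ | ⟨-, h1, h2⟩ | ⟨-, h1, h2⟩ | ⟨-, h1, h2⟩ <;>
  rcases hbV with ⟨h5, -, -⟩ | ⟨-, h3, h4⟩ | ⟨-, h3, h4⟩ | ⟨-, h3, h4⟩ <;>
  first
    | exact absurd h5 hne
    | skip
  all_goals
    rcases hes with ⟨hp, hp'⟩ | ⟨hp, hp'⟩ | ⟨hp, hp', hp''⟩ <;>
    rcases heV' with ⟨hq, hq'⟩ | ⟨hq, hq'⟩ | ⟨hq, hq', hq''⟩ <;>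
    rcases key with ⟨k1, k2, k3, k4⟩ | ⟨k1, k2, k3⟩ | ⟨k1, k2, k3⟩ <;>
    first
      | (exfalso; omega)
      | (left; refine ⟨?_, ?_, ?_, ?_⟩ <;> omega)
      | (right; left; refine ⟨?_, ?_, ?_, ?_⟩ <;> omega)
      | (right; right; left; refine ⟨?_, ?_, ?_, ?_⟩ <;> omega)
      | (right; right; right; left; refine ⟨?_, ?_, ?_, ?_, ?_, ?_⟩ <;> omega)
      | (right; right; right; right; left; refine ⟨?_, ?_, ?_, ?_⟩ <;> omega)
      | (right; right; right; right; right; left; refine ⟨?_, ?_, ?_, ?_⟩ <;> omega)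
      | (right; right; right; right; right; right; left; refine ⟨?_, ?_, ?_, ?_⟩ <;> omega)
      | (right; right; right; right; right; right; right; left; refine ⟨?_, ?_, ?_, ?_⟩ <;> omega)

theorem core_refl (l r U : B) (a : ℤ)
    (hu : 11 + eps (l.size + r.size + U.size + 1) + beta l + beta r + beta U ≤ a)
    (hl : l ≠ .e → 22 + eps (l.size + r.size + U.size + 1) + gamma l - eps r.size - eps U.size ≤ a)
    (hr : r ≠ .e → 22 + eps (l.size + r.size + U.size + 1) + gamma r - eps l.size - eps U.size ≤ a)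
    (hU : U ≠ .e → 22 + eps (l.size + r.size + U.size + 1) + gamma U - eps l.size - eps r.size ≤ a) :
    40 ≤ a + (11 + eps (l.size + r.size + U.size + 1) + beta l + beta r + beta U) := by
  have hS := eps_cases (l.size + r.size + U.size + 1)
  rcases cls l with ⟨n1, s1, b1, e1⟩ | ⟨n1, s1, b1, g1, e1⟩ | ⟨n1, s1, b1, g1, e1⟩ |
    ⟨n1, s1, b1, g1, e1⟩ | ⟨n1, s1, b1, g1, e1⟩ | ⟨n1, s1, b1, g1, e1⟩ | ⟨n1, s1, b1, g1, e1⟩ <;>
  rcases cls r with ⟨n2, s2, b2, e2⟩ | ⟨n2, s2, b2, g2, e2⟩ | ⟨n2, s2, b2, g2, e2⟩ |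
    ⟨n2, s2, b2, g2, e2⟩ | ⟨n2, s2, b2, g2, e2⟩ | ⟨n2, s2, b2, g2, e2⟩ | ⟨n2, s2, b2, g2, e2⟩ <;>
  rcases cls U with ⟨n3, s3, b3, e3⟩ | ⟨n3, s3, b3, g3, e3⟩ | ⟨n3, s3, b3, g3, e3⟩ |
    ⟨n3, s3, b3, g3, e3⟩ | ⟨n3, s3, b3, g3, e3⟩ | ⟨n3, s3, b3, g3, e3⟩ | ⟨n3, s3, b3, g3, e3⟩ <;>
  first
    | (clear hl hr hU; omega)
    | (have hl := hl n1; clear hr hU; omega)
    | (have hr := hr n2; clear hl hU; omega)
    | (have hU := hU n3; clear hl hr; omega)

theorem core_base (l r X : B) (hX : 2 ≤ X.size) (a : ℤ)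
    (hu : 11 + eps (l.size + r.size + X.size + 1) + beta l + beta r + beta X ≤ a)
    (hl : l ≠ .e → 22 + eps (l.size + r.size + X.size + 1) + gamma l - eps r.size - eps X.size ≤ a)
    (hr : r ≠ .e → 22 + eps (l.size + r.size + X.size + 1) + gamma r - eps l.size - eps X.size ≤ a)
    (hU : X ≠ .e → 22 + eps (l.size + r.size + X.size + 1) + gamma X - eps l.size - eps r.size ≤ a) :
    40 ≤ a + (11 + eps (l.size + r.size + 1) + beta l + beta r) := by
  have hS := eps_cases (l.size + r.size + X.size + 1)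
  have hS' := eps_cases (l.size + r.size + 1)
  rcases cls l with ⟨n1, s1, b1, e1⟩ | ⟨n1, s1, b1, g1, e1⟩ | ⟨n1, s1, b1, g1, e1⟩ |
    ⟨n1, s1, b1, g1, e1⟩ | ⟨n1, s1, b1, g1, e1⟩ | ⟨n1, s1, b1, g1, e1⟩ | ⟨n1, s1, b1, g1, e1⟩ <;>
  rcases cls r with ⟨n2, s2, b2, e2⟩ | ⟨n2, s2, b2, g2, e2⟩ | ⟨n2, s2, b2, g2, e2⟩ |
    ⟨n2, s2, b2, g2, e2⟩ | ⟨n2, s2, b2, g2, e2⟩ | ⟨n2, s2, b2, g2, e2⟩ | ⟨n2, s2, b2, g2, e2⟩ <;>
  rcases cls X with ⟨n3, s3, b3, e3⟩ | ⟨n3, s3, b3, g3, e3⟩ | ⟨n3, s3, b3, g3, e3⟩ |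
    ⟨n3, s3, b3, g3, e3⟩ | ⟨n3, s3, b3, g3, e3⟩ | ⟨n3, s3, b3, g3, e3⟩ | ⟨n3, s3, b3, g3, e3⟩ <;>
  first
    | (clear hl hr hU; omega)
    | (have hl := hl n1; clear hr hU; omega)
    | (have hr := hr n2; clear hl hU; omega)
    | (have hU := hU n3; clear hl hr; omega)

theorem core_step (l r s V V' X : B) (h : Ext X V V') (hX : 2 ≤ X.size) (a : ℤ)
    (hexc : ¬ (l.size + r.size + (B.n s V).size + 1 = 3 ∧ X.size = 3 ∧ beta X = -7))
    (hu : 11 + eps (l.size + r.size + (B.n s V').size + 1) + beta l + beta r + beta (.n s V') ≤ a)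
    (hl : l ≠ .e → 22 + eps (l.size + r.size + (B.n s V').size + 1) + gamma l - eps r.size -
      eps (B.n s V').size ≤ a)
    (hr : r ≠ .e → 22 + eps (l.size + r.size + (B.n s V').size + 1) + gamma r - eps l.size -
      eps (B.n s V').size ≤ a)
    (hU : 22 + eps (l.size + r.size + (B.n s V').size + 1) + gamma (.n s V') - eps l.size -
      eps r.size ≤ a) :
    40 ≤ a + (11 + eps (l.size + r.size + (B.n s V).size + 1) + beta l + beta r +
      beta (.n s V)) := by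
  have hsz : (B.n s V').size = (B.n s V).size + X.size := (Ext.step s h).size
  have hS := eps_cases (l.size + r.size + (B.n s V').size + 1)
  have hS' := eps_cases (l.size + r.size + (B.n s V).size + 1)
  have hE := eps_cases (B.n s V').size
  have hp := pair_step (s := s) h hX
  generalize (B.n s V').size = z' at *
  generalize (B.n s V).size = z at *
  generalize beta (B.n s V') = bz' at *
  generalize beta (B.n s V) = bz at *
  generalize gamma (B.n s V') = gz' at *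
  rcases cls l with ⟨n1, s1, b1, e1⟩ | ⟨n1, s1, b1, g1, e1⟩ | ⟨n1, s1, b1, g1, e1⟩ |
    ⟨n1, s1, b1, g1, e1⟩ | ⟨n1, s1, b1, g1, e1⟩ | ⟨n1, s1, b1, g1, e1⟩ | ⟨n1, s1, b1, g1, e1⟩ <;>
  rcases cls r with ⟨n2, s2, b2, e2⟩ | ⟨n2, s2, b2, g2, e2⟩ | ⟨n2, s2, b2, g2, e2⟩ |
    ⟨n2, s2, b2, g2, e2⟩ | ⟨n2, s2, b2, g2, e2⟩ | ⟨n2, s2, b2, g2, e2⟩ | ⟨n2, s2, b2, g2, e2⟩ <;>
  rcases hp with ⟨s3, b3, c3, g3⟩ | ⟨s3, b3, c3, g3⟩ | ⟨s3, b3, c3, g3⟩ |
    ⟨s3, b3, c3, g3, x3, x4⟩ | ⟨s3, b3, c3, g3⟩ | ⟨s3, b3, c3, g3⟩ | ⟨s3, b3, c3, g3⟩ |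
    ⟨s3, b3, c3, g3⟩ | ⟨s3, b3, c3, g3⟩ <;>
  first
    | (clear hl hr hU; omega)
    | (clear hl hr; omega)
    | (have hl := hl n1; clear hr hU; omega)
    | (have hr := hr n2; clear hl hU; omega)

end Pool.Agent.Helper60.Idg
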