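import Pool.Agent.Helper60.Idg.LowTab

/-!
Verification of the table by computation.
-/

namespace Pool.Agent.Helper60.Idg

/-- neighbourhoods in the 24 vertex unit -/
def nbl : List ℕ :=
  [6, 1, 41, 20, 8, 32836, 416, 64, 4672, 3328, 512, 512, 24832, 4096, 4096, 196640, 32768,
    2392064, 1703936, 262144, 262144, 12713984, 2097152, 2097152]

def nb (j : ℕ) : ℕ := nbl.getD j 0

/-- closed neighbourhood -/
def cl (j : ℕ) : ℕ := nb j ||| 2 ^ j

def dummy : Ent := ⟨0, 0, 0, 0, 0, [], []⟩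

def find : Tr → ℕ → Ent
  | .lf, _ => dummy
  | .nd l e r, c => bif Nat.beq c e.m then e else (bif Nat.blt c e.m then find l c else find r c)

def ent (c : ℕ) : Ent := find tree c

def isIn (c : ℕ) : Bool := Nat.blt 0 c && Nat.beq (ent c).m c

def psi (c : ℕ) : ℕ := (ent c).psi
def sig (c : ℕ) : ℕ := (ent c).sig

def psiSum (l : List ℕ) : ℕ := (l.map psi).sum

def orAll : List ℕ → ℕ
  | [] => 0
  | c :: l => c ||| orAll l

/-- pairwise disjoint and non-adjacent -/
def sepAll : List ℕ → Bool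
  | [] => true
  | c :: l => Nat.beq (c &&& orAll l) 0 && Nat.beq ((ent c).nm &&& orAll l) 0 && sepAll l

def mvOf (e : Ent) (u : ℕ) : List ℕ :=
  match e.mv.find? (fun t => Nat.beq t.1 u) with
  | some t => t.2.2
  | none => []

def isBd (w : ℕ) : Bool := Nat.beq w 0 || Nat.beq w 3

/-- the reply of the Sweller at `w` in the component `c'` of `ks` -/
def chkReply (e : Ent) (w : ℕ) (ks : List ℕ) : Bool :=
  !(isBd w) && ks.any (fun c' => Nat.testBit c' w &&
    (let ks' := mvOf (ent c') w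
     let rest := ks.erase c'
     Nat.ble (e.psi) (psiSum ks' + psiSum rest + 16) &&
     (ks'.all fun c => Nat.ble (sig c) e.sig) && (rest.all fun c => Nat.ble (sig c) e.sig)))

def chkMove (e : Ent) (t : ℕ × ℕ × List ℕ) : Bool :=
  Nat.testBit e.m t.1 && Nat.blt t.1 24 && t.2.2.all isIn &&
  Nat.beq (orAll t.2.2 &&& cl t.1) 0 && Nat.beq (orAll t.2.2 ||| (e.m &&& cl t.1)) e.m &&
  sepAll t.2.2 &&
  (Nat.ble e.psi (psiSum t.2.2 + 8 + e.sig) || chkReply e t.2.1 t.2.2)

def chkEr (e : Ent) (t : ℕ × List ℕ) : Bool :=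
  Nat.testBit e.m t.1 && isBd t.1 && t.2.all isIn &&
  Nat.beq (orAll t.2 &&& 2 ^ t.1) 0 && Nat.beq (orAll t.2 ||| 2 ^ t.1) e.m &&
  sepAll t.2 && Nat.ble e.psi (psiSum t.2) && (t.2.all fun c => Nat.ble (sig c) e.sig)

def chkS (e : Ent) : Bool :=
  !(isBd e.v) && Nat.testBit e.m e.v &&
  (let ks := mvOf e e.v
   Nat.ble (e.psi + e.sig) (8 + psiSum ks) &&
   (ks.all fun c => Nat.ble (e.psi + sig c) (8 + psiSum ks)))

def chkEnt (e : Ent) : Bool :=
  isIn e.m && Nat.blt e.m (2 ^ 24) &&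
  ((List.range 24).all fun j => !(Nat.testBit e.m j) || Nat.beq (nb j ||| e.nm) e.nm) &&
  ((List.range 24).all fun j => !(Nat.testBit e.m j) || e.mv.any (fun t => Nat.beq t.1 j)) &&
  (!(Nat.testBit e.m 0) || e.er.any (fun t => Nat.beq t.1 0)) &&
  (!(Nat.testBit e.m 3) || e.er.any (fun t => Nat.beq t.1 3)) &&
  (e.mv.all fun t => chkMove e t) && (e.er.all fun t => chkEr e t) && chkS e

def trAll (p : Ent → Bool) : Tr → Bool
  | .lf => true
  | .nd l e r => trAll p l && p e && trAll p r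

theorem chk_all : trAll chkEnt tree = true := by decide +kernel

theorem nb_symm : ((List.range 24).all fun j => (List.range 24).all fun t =>
    (Nat.testBit (nb j) t == Nat.testBit (nb t) j)) = true := by decide +kernel

theorem nb_lt : ((List.range 24).all fun j => Nat.blt (nb j) (2 ^ 24)) = true := by decide +kernel

theorem full_in : isIn 16777215 = true ∧ psi 16777215 = 100 ∧ sig 16777215 = 4 := by
  decide +kernel

end Pool.Agent.Helper60.Idg
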