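import Pool.Agent.Helper60.Idg.LowSound
import Pool.Agent.Helper60.Idg.Game

/-!
The chain of `k` units and its positions.
-/

namespace Pool.Agent.Helper60.Idg

open scoped Classical

/-- adjacency in the chain: inside a unit, or between vertex 3 of a unit and vertex 0 of the next -/
def AdjN (v w : ℕ) : Prop :=
  (v / 24 = w / 24 ∧ (nb (v % 24)).testBit (w % 24) = true) ∨
  (w / 24 = v / 24 + 1 ∧ v % 24 = 3 ∧ w % 24 = 0) ∨
  (v / 24 = w / 24 + 1 ∧ v % 24 = 0 ∧ w % 24 = 3)

theorem AdjN.symm' {v w : ℕ} (h : AdjN v w) : AdjN w v := by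
  rcases h with ⟨h1, h2⟩ | ⟨h1, h2, h3⟩ | ⟨h1, h2, h3⟩
  · exact Or.inl ⟨h1.symm, nb_symm' _ _ h2⟩
  · exact Or.inr (Or.inr ⟨h1, h3, h2⟩)
  · exact Or.inr (Or.inl ⟨h1, h3, h2⟩)

theorem nb_irrefl_chk : ((List.range 24).all fun j => !(Nat.testBit (nb j) j)) = true := by
  decide +kernel

theorem nb_irrefl (j : ℕ) (hj : j < 24) : (nb j).testBit j = false := by
  have := nb_irrefl_chk
  rw [List.all_eq_true] at this
  simpa using this j (List.mem_range.mpr hj)

/-- the chain of `k` units -/
def chain (k : ℕ) : SimpleGraph (Fin (24 * k)) where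
  Adj v w := AdjN v.val w.val
  symm := ⟨fun _ _ h => h.symm'⟩
  loopless := ⟨by
    intro v h
    rcases h with ⟨h1, h2⟩ | ⟨h1, h2, h3⟩ | ⟨h1, h2, h3⟩
    · rw [nb_irrefl _ (Nat.mod_lt _ (by norm_num))] at h2; simp at h2
    · omega
    · omega⟩

/-- `Rep A L`: the position `A` consists of the components `L` (unit number, bit mask) -/
structure Rep {k : ℕ} (A : Finset (Fin (24 * k))) (L : List (ℕ × ℕ)) : Prop where
  mem : ∀ v, v ∈ A ↔ ∃ e ∈ L, e.1 = v.val / 24 ∧ e.2.testBit (v.val % 24) = true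
  sep : L.Pairwise (fun e e' => e.1 = e'.1 → Sep e.2 e'.2)
  inn : ∀ e ∈ L, e.1 < k ∧ isIn e.2 = true

theorem Rep.perm {k : ℕ} {A : Finset (Fin (24 * k))} {L L' : List (ℕ × ℕ)} (h : Rep A L)
    (hp : L.Perm L') : Rep A L' := by
  refine ⟨?_, ?_, ?_⟩
  · intro v
    rw [h.mem v]
    constructor
    · rintro ⟨e, he, h1⟩; exact ⟨e, hp.subset he, h1⟩
    · rintro ⟨e, he, h1⟩; exact ⟨e, hp.symm.subset he, h1⟩
  · refine (hp.pairwise_iff ?_).mp h.sep
    intro e e' h1 h2
    exact (h1 h2.symm).symm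
  · intro e he; exact h.inn e (hp.symm.subset he)

def psiL (L : List (ℕ × ℕ)) : ℕ := (L.map (fun e => psi e.2)).sum

theorem psiL_append (L L' : List (ℕ × ℕ)) : psiL (L ++ L') = psiL L + psiL L' := by
  simp [psiL]

theorem psiL_cons (e : ℕ × ℕ) (L : List (ℕ × ℕ)) : psiL (e :: L) = psi e.2 + psiL L := by
  simp [psiL]

theorem psiL_perm {L L' : List (ℕ × ℕ)} (h : L.Perm L') : psiL L = psiL L' :=
  (h.map _).sum_eq

theorem psiL_map (i : ℕ) (ks : List ℕ) : psiL (ks.map (fun c => (i, c))) = psiSum ks := by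
  simp [psiL, psiSum, Function.comp_def]

/-- replacing one entry by the pieces of a subset -/
theorem Rep.replace {k : ℕ} {A A' : Finset (Fin (24 * k))} {i c : ℕ} {L0 : List (ℕ × ℕ)}
    {ks : List ℕ} (h : Rep A ((i, c) :: L0)) (hin : ∀ c' ∈ ks, isIn c' = true)
    (hsep : ks.Pairwise Sep)
    (hsub : ∀ c' ∈ ks, ∀ t, c'.testBit t = true → c.testBit t = true)
    (hA' : ∀ v : Fin (24 * k), v ∈ A' ↔
      ((i = v.val / 24 ∧ ∃ c' ∈ ks, c'.testBit (v.val % 24) = true) ∨
        ∃ e ∈ L0, e.1 = v.val / 24 ∧ e.2.testBit (v.val % 24) = true)) :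
    Rep A' (ks.map (fun c' => (i, c')) ++ L0) := by
  have hs := List.pairwise_cons.mp h.sep
  refine ⟨?_, ?_, ?_⟩
  · intro v
    rw [hA' v]
    constructor
    · rintro (⟨h1, c', hc', h2⟩ | ⟨e, he, h1⟩)
      · exact ⟨(i, c'), List.mem_append_left _ (List.mem_map.mpr ⟨c', hc', rfl⟩), h1, h2⟩
      · exact ⟨e, List.mem_append_right _ he, h1⟩
    · rintro ⟨e, he, h1, h2⟩
      rw [List.mem_append, List.mem_map] at he
      rcases he with ⟨c', hc', rfl⟩ | he
      · exact Or.inl ⟨h1, c', hc', h2⟩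
      · exact Or.inr ⟨e, he, h1, h2⟩
  · rw [List.pairwise_append]
    refine ⟨?_, hs.2, ?_⟩
    · rw [List.pairwise_map]
      refine List.Pairwise.imp ?_ hsep
      intro a b h1 _
      exact h1
    · intro a ha b hb hab
      rw [List.mem_map] at ha
      obtain ⟨c', hc', rfl⟩ := ha
      have h1 := hs.1 b hb hab
      intro t t' ht ht'
      exact h1 t t' (hsub c' hc' t ht) ht'
  · intro e he
    rw [List.mem_append, List.mem_map] at he
    rcases he with ⟨c', hc', rfl⟩ | he
    · exact ⟨(h.inn (i, c) List.mem_cons_self).1, hin c' hc'⟩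
    · exact h.inn e (List.mem_cons_of_mem _ he)

/-- the vertices removed inside the unit -/
def cutRem (i u : ℕ) (w : ℕ) : Prop :=
  w / 24 = i ∧ (w % 24 = u ∨ (nb u).testBit (w % 24) = true)

theorem Rep.cut {k : ℕ} {A : Finset (Fin (24 * k))} {i c u : ℕ} {L0 : List (ℕ × ℕ)}
    {ks : List ℕ} (h : Rep A ((i, c) :: L0)) (hu : c.testBit u = true) (hk : Kids c u ks) :
    Rep (A.filter (fun w => ¬ cutRem i u w.val)) (ks.map (fun c' => (i, c')) ++ L0) := by
  have hs := List.pairwise_cons.mp h.sep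
  refine h.replace hk.inn hk.sep ?_ ?_
  · intro c' hc' t ht
    exact ((hk.mem t).mp ⟨c', hc', ht⟩).1
  · intro v
    rw [Finset.mem_filter, h.mem v, hk.mem]
    unfold cutRem
    constructor
    · rintro ⟨⟨e, he, h1, h2⟩, h3⟩
      rcases List.mem_cons.mp he with rfl | he
      · left
        refine ⟨h1, h2, ?_, ?_⟩
        · intro h4; exact h3 ⟨h1.symm, Or.inl h4⟩
        · by_contra h4
          rw [Bool.not_eq_false] at h4
          exact h3 ⟨h1.symm, Or.inr h4⟩
      · right; exact ⟨e, he, h1, h2⟩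
    · rintro (⟨h1, h2, h3, h4⟩ | ⟨e, he, h1, h2⟩)
      · refine ⟨⟨(i, c), List.mem_cons_self, h1, h2⟩, ?_⟩
        rintro ⟨-, h5 | h5⟩
        · exact h3 h5
        · rw [h5] at h4; simp at h4
      · refine ⟨⟨e, List.mem_cons_of_mem _ he, h1, h2⟩, ?_⟩
        rintro ⟨h3, h4⟩
        have h5 := hs.1 e he (by rw [h1, h3]) u (v.val % 24) hu h2
        rcases h4 with h4 | h4
        · exact h5.1 h4.symm
        · rw [h5.2] at h4; simp at h4

theorem Rep.eraseB {k : ℕ} {A : Finset (Fin (24 * k))} {K L0 : List (ℕ × ℕ)}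
    (h : Rep A (K ++ L0)) (x : Fin (24 * k)) (hx : x.val % 24 = 0 ∨ x.val % 24 = 3)
    (hK : ∀ e ∈ K, e.1 ≠ x.val / 24) :
    ∃ L0', Rep (A.erase x) (K ++ L0') ∧ psiL L0 ≤ psiL L0' ∧
      ∀ g, (∀ e ∈ L0, sig e.2 ≤ g) → ∀ e ∈ L0', sig e.2 ≤ g := by
  by_cases hxA : x ∈ A
  · obtain ⟨⟨i, c⟩, he, h1, h2⟩ := (h.mem x).mp hxA
    simp only at h1 h2
    have he' : (i, c) ∈ L0 := by
      rcases List.mem_append.mp he with he | he
      · exact absurd h1 (hK _ he)
      · exact he
    obtain ⟨L1, L2, rfl⟩ := List.append_of_mem he'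
    have hp : (K ++ (L1 ++ (i, c) :: L2)).Perm ((i, c) :: (K ++ (L1 ++ L2))) := by
      refine (List.Perm.append_left K List.perm_middle).trans ?_
      exact List.perm_middle
    have h' := h.perm hp
    have hin := (h'.inn (i, c) List.mem_cons_self)
    obtain ⟨ks, hks, hpsi, hsig⟩ := erase_border hin.2 hx h2
    have hs := List.pairwise_cons.mp h'.sep
    have hrep : Rep (A.erase x) (ks.map (fun c' => (i, c')) ++ (K ++ (L1 ++ L2))) := by
      refine h'.replace hks.inn hks.sep ?_ ?_
      · intro c' hc' t ht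
        exact ((hks.mem t).mp ⟨c', hc', ht⟩).1
      · intro v
        rw [Finset.mem_erase, h'.mem v, hks.mem]
        constructor
        · rintro ⟨hvx, e, he, h3, h4⟩
          rcases List.mem_cons.mp he with rfl | he
          · left
            refine ⟨h3, h4, ?_⟩
            intro h5
            apply hvx
            simp only at h3
            apply Fin.ext
            omega
          · right; exact ⟨e, he, h3, h4⟩
        · rintro (⟨h3, h4, h5⟩ | ⟨e, he, h3, h4⟩)
          · refine ⟨?_, (i, c), List.mem_cons_self, h3, h4⟩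
            rintro rfl; exact h5 rfl
          · refine ⟨?_, e, List.mem_cons_of_mem _ he, h3, h4⟩
            rintro rfl
            have h5 := hs.1 e he (by simp only; rw [h1, h3]) _ _ h2 h4
            exact h5.1 rfl
    refine ⟨ks.map (fun c' => (i, c')) ++ (L1 ++ L2), ?_, ?_, ?_⟩
    · refine hrep.perm ?_
      have := List.Perm.append_right (L1 ++ L2)
        (List.perm_append_comm (l₁ := ks.map (fun c' => (i, c'))) (l₂ := K))
      rw [List.append_assoc, List.append_assoc] at this
      exact this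
    · simp only [psiL_append, psiL_map, psiL_cons]
      simp only at hpsi
      omega
    · intro g hg e he
      rw [List.mem_append, List.mem_map] at he
      rcases he with ⟨c', hc', rfl⟩ | he
      · exact (hsig c' hc').trans (hg (i, c) (by simp))
      · apply hg
        rw [List.mem_append] at he ⊢
        rcases he with he | he
        · exact Or.inl he
        · exact Or.inr (List.mem_cons_of_mem _ he)
  · refine ⟨L0, ?_, le_refl _, fun g hg => hg⟩
    rw [Finset.erase_eq_of_notMem hxA]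
    exact h

/-- a move, in general -/
theorem Rep.move {k : ℕ} {A : Finset (Fin (24 * k))} {L : List (ℕ × ℕ)} (h : Rep A L)
    {v : Fin (24 * k)} (hv : v ∈ A) :
    ∃ c L0, L.Perm ((v.val / 24, c) :: L0) ∧ isIn c = true ∧ c.testBit (v.val % 24) = true ∧
      ∀ ks, Kids c (v.val % 24) ks → ∃ L0',
        Rep (del (chain k) A v) (ks.map (fun c' => (v.val / 24, c')) ++ L0') ∧
        psiL L0 ≤ psiL L0' ∧ ∀ g, (∀ e ∈ L0, sig e.2 ≤ g) → ∀ e ∈ L0', sig e.2 ≤ g := by
  obtain ⟨⟨i, c⟩, he, h1, h2⟩ := (h.mem v).mp hv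
  simp only at h1 h2
  subst h1
  obtain ⟨L1, L2, rfl⟩ := List.append_of_mem he
  have h' := h.perm List.perm_middle
  refine ⟨c, L1 ++ L2, List.perm_middle, (h'.inn _ List.mem_cons_self).2, h2, ?_⟩
  intro ks hk
  have hc := h'.cut h2 hk
  have hK : ∀ j, j ≠ v.val / 24 → ∀ e ∈ ks.map (fun c' => (v.val / 24, c')), e.1 ≠ j := by
    intro j hj e he
    rw [List.mem_map] at he
    obtain ⟨c', -, rfl⟩ := he
    exact hj.symm
  -- description of `del`
  have hdel : ∀ w : Fin (24 * k), w ∈ del (chain k) A v ↔ w ∈ A ∧ w ≠ v ∧ ¬ AdjN v.val w.val := by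
    intro w
    simp only [del, Finset.mem_filter]
    rfl
  by_cases hb : v.val % 24 = 3 ∧ 24 * (v.val / 24 + 1) < 24 * k
  · obtain ⟨L0', hR, hp, hsg⟩ := hc.eraseB ⟨24 * (v.val / 24 + 1), hb.2⟩
      (by left; simp only; omega)
      (hK _ (by simp only; omega))
    refine ⟨L0', ?_, hp, hsg⟩
    have : del (chain k) A v = (A.filter (fun w => ¬ cutRem (v.val / 24) (v.val % 24) w.val)).erase
        ⟨24 * (v.val / 24 + 1), hb.2⟩ := by
      ext w
      rw [hdel, Finset.mem_erase, Finset.mem_filter]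
      unfold AdjN cutRem
      constructor
      · rintro ⟨h3, h4, h5⟩
        push Not at h5
        refine ⟨?_, h3, ?_⟩
        · rintro rfl
          simp only at h5
          exact h5.2.1 (by omega) hb.1 (by omega)
        · rintro ⟨h6, h7 | h7⟩
          · apply h4; apply Fin.ext; omega
          · exact h5.1 h6.symm h7
      · rintro ⟨h3, h4, h5⟩
        refine ⟨h4, ?_, ?_⟩
        · rintro rfl
          exact h5 ⟨rfl, Or.inl rfl⟩
        · rintro (⟨h6, h7⟩ | ⟨h6, h7, h8⟩ | ⟨h6, h7, h8⟩)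
          · exact h5 ⟨h6.symm, Or.inr h7⟩
          · apply h3; apply Fin.ext; simp only; omega
          · omega
    rw [this]
    exact hR
  · by_cases hb2 : v.val % 24 = 0 ∧ 1 ≤ v.val / 24
    · have hlt : 24 * (v.val / 24 - 1) + 3 < 24 * k := by
        have := v.isLt
        omega
      obtain ⟨L0', hR, hp, hsg⟩ := hc.eraseB ⟨24 * (v.val / 24 - 1) + 3, hlt⟩
        (by right; simp only; omega)
        (hK _ (by simp only; omega))
      refine ⟨L0', ?_, hp, hsg⟩
      have : del (chain k) A v =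
          (A.filter (fun w => ¬ cutRem (v.val / 24) (v.val % 24) w.val)).erase
          ⟨24 * (v.val / 24 - 1) + 3, hlt⟩ := by
        ext w
        rw [hdel, Finset.mem_erase, Finset.mem_filter]
        unfold AdjN cutRem
        constructor
        · rintro ⟨h3, h4, h5⟩
          push Not at h5
          refine ⟨?_, h3, ?_⟩
          · rintro rfl
            simp only at h5
            exact h5.2.2 (by omega) hb2.1 (by omega)
          · rintro ⟨h6, h7 | h7⟩
            · apply h4; apply Fin.ext; omega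
            · exact h5.1 h6.symm h7
        · rintro ⟨h3, h4, h5⟩
          refine ⟨h4, ?_, ?_⟩
          · rintro rfl
            exact h5 ⟨rfl, Or.inl rfl⟩
          · rintro (⟨h6, h7⟩ | ⟨h6, h7, h8⟩ | ⟨h6, h7, h8⟩)
            · exact h5 ⟨h6.symm, Or.inr h7⟩
            · omega
            · apply h3; apply Fin.ext; simp only; omega
      rw [this]
      exact hR
    · refine ⟨L1 ++ L2, ?_, le_refl _, fun g hg => hg⟩
      have : del (chain k) A v =
          A.filter (fun w => ¬ cutRem (v.val / 24) (v.val % 24) w.val) := by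
        ext w
        rw [hdel, Finset.mem_filter]
        unfold AdjN cutRem
        constructor
        · rintro ⟨h3, h4, h5⟩
          push Not at h5
          refine ⟨h3, ?_⟩
          rintro ⟨h6, h7 | h7⟩
          · apply h4; apply Fin.ext; omega
          · exact h5.1 h6.symm h7
        · rintro ⟨h4, h5⟩
          refine ⟨h4, ?_, ?_⟩
          · rintro rfl
            exact h5 ⟨rfl, Or.inl rfl⟩
          · rintro (⟨h6, h7⟩ | ⟨h6, h7, h8⟩ | ⟨h6, h7, h8⟩)
            · exact h5 ⟨h6.symm, Or.inr h7⟩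
            · have := w.isLt
              apply hb
              refine ⟨h7, ?_⟩
              omega
            · apply hb2
              refine ⟨h7, ?_⟩
              omega
      rw [this]
      exact hc

/-- a move at a vertex that is not on the border -/
theorem Rep.moveAt {k : ℕ} {A : Finset (Fin (24 * k))} {i c u : ℕ} {L0 : List (ℕ × ℕ)}
    {ks : List ℕ} (h : Rep A ((i, c) :: L0)) (hu : c.testBit u = true) (hu0 : u ≠ 0)
    (hu3 : u ≠ 3) (hk : Kids c u ks) :
    ∃ v ∈ A, Rep (del (chain k) A v) (ks.map (fun c' => (i, c')) ++ L0) := by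
  have hin := h.inn (i, c) List.mem_cons_self
  simp only at hin
  obtain ⟨h1, h2⟩ := ent_chk hin.2
  obtain ⟨-, h3, -⟩ := chkEnt_unfold h1
  rw [h2] at h3
  have hu24 := lt_of_testBit h3 hu
  have hlt : 24 * i + u < 24 * k := by omega
  have hd : (24 * i + u) / 24 = i := by omega
  have hm : (24 * i + u) % 24 = u := by omega
  have hvA : (⟨24 * i + u, hlt⟩ : Fin (24 * k)) ∈ A := by
    rw [h.mem]
    refine ⟨(i, c), List.mem_cons_self, ?_, ?_⟩
    · simp only [hd]
    · simp only [hm]; exact hu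
  refine ⟨⟨24 * i + u, hlt⟩, hvA, ?_⟩
  have : del (chain k) A ⟨24 * i + u, hlt⟩ = A.filter (fun w => ¬ cutRem i u w.val) := by
    ext w
    simp only [del, Finset.mem_filter]
    change w ∈ A ∧ w ≠ _ ∧ ¬ AdjN (24 * i + u) w.val ↔ _
    unfold AdjN cutRem
    rw [hd, hm]
    constructor
    · rintro ⟨h3, h4, h5⟩
      push Not at h5
      refine ⟨h3, ?_⟩
      rintro ⟨h6, h7 | h7⟩
      · apply h4; apply Fin.ext; simp only; omega
      · exact h5.1 h6.symm h7
    · rintro ⟨h4, h5⟩
      refine ⟨h4, ?_, ?_⟩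
      · rintro rfl
        exact h5 ⟨hd, Or.inl hm⟩
      · rintro (⟨h6, h7⟩ | ⟨h6, h7, h8⟩ | ⟨h6, h7, h8⟩)
        · exact h5 ⟨h6.symm, Or.inr h7⟩
        · exact hu3 h7
        · exact hu0 h7
  rw [this]
  exact h.cut hu hk

end Pool.Agent.Helper60.Idg
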