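import Pool.Agent.Helper60.Idg.LowChk

/-!
What the checked table says.
-/

namespace Pool.Agent.Helper60.Idg

theorem nbeq (a b : ℕ) : (Nat.beq a b = true) = (a = b) := by
  rw [Nat.beq_eq]

theorem trAll_find (p : Ent → Bool) (c : ℕ) : ∀ t : Tr, trAll p t = true →
    p (find t c) = true ∨ find t c = dummy := by
  intro t
  induction t with
  | lf => intro _; right; rfl
  | nd l e r ihl ihr =>
    intro h
    simp only [trAll, Bool.and_eq_true] at h
    obtain ⟨⟨h1, h2⟩, h3⟩ := h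
    rw [find]
    cases hc : Nat.beq c e.m with
    | true => left; simpa using h2
    | false =>
      cases hb : Nat.blt c e.m with
      | true => simpa [hb] using ihl h1
      | false => simpa [hb] using ihr h3

theorem ent_chk {c : ℕ} (hc : isIn c = true) : chkEnt (ent c) = true ∧ (ent c).m = c := by
  simp only [isIn, Bool.and_eq_true, nbeq] at hc
  obtain ⟨h1, h2⟩ := hc
  refine ⟨?_, h2⟩
  rcases trAll_find chkEnt c tree chk_all with h | h
  · exact h
  · exfalso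
    have h0 : (ent c).m = 0 := by unfold ent; rw [h]; rfl
    rw [h0] at h2
    subst h2
    simp [Nat.blt] at h1

theorem testBit_orAll (l : List ℕ) (t : ℕ) :
    (orAll l).testBit t = true ↔ ∃ c ∈ l, c.testBit t = true := by
  induction l with
  | nil => simp [orAll]
  | cons c l ih => simp [orAll, Nat.testBit_or, ih]

/-- no common and no adjacent bits -/
def Sep (c c' : ℕ) : Prop :=
  ∀ t t', c.testBit t = true → c'.testBit t' = true → t ≠ t' ∧ (nb t).testBit t' = false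

theorem and_zero {a b t : ℕ} (h : a &&& b = 0) (ha : a.testBit t = true) :
    b.testBit t = false := by
  have := Nat.testBit_and a b t
  rw [h, Nat.zero_testBit, ha, Bool.true_and] at this
  exact this.symm

theorem lt_of_testBit {c t n : ℕ} (hc : c < 2 ^ n) (h : c.testBit t = true) : t < n := by
  by_contra hlt
  have h2 : 2 ^ n ≤ 2 ^ t := Nat.pow_le_pow_right (by norm_num) (by omega)
  rw [Nat.testBit_lt_two_pow (lt_of_lt_of_le hc h2)] at h
  simp at h

theorem chkEnt_unfold {e : Ent} (h : chkEnt e = true) :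
    isIn e.m = true ∧ e.m < 2 ^ 24 ∧
    (∀ j < 24, e.m.testBit j = true → nb j ||| e.nm = e.nm) ∧
    (∀ j < 24, e.m.testBit j = true → ∃ t ∈ e.mv, t.1 = j) ∧
    (e.m.testBit 0 = true → ∃ t ∈ e.er, t.1 = 0) ∧
    (e.m.testBit 3 = true → ∃ t ∈ e.er, t.1 = 3) ∧
    (∀ t ∈ e.mv, chkMove e t = true) ∧ (∀ t ∈ e.er, chkEr e t = true) ∧ chkS e = true := by
  simp only [chkEnt, Bool.and_eq_true, List.all_eq_true, List.any_eq_true, Bool.or_eq_true,
    Bool.not_eq_true', nbeq, List.mem_range] at h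
  obtain ⟨⟨⟨⟨⟨⟨⟨⟨h1, h2⟩, h3⟩, h4⟩, h5⟩, h6⟩, h7⟩, h8⟩, h9⟩ := h
  have key : ∀ {b : Bool} {P : Prop}, (b = false ∨ P) → b = true → P := by
    intro b P h hb
    rcases h with h | h
    · rw [h] at hb; simp at hb
    · exact h
  refine ⟨h1, ?_, ?_, ?_, key h5, key h6, h7, h8, h9⟩
  · have := Nat.blt_eq (x := e.m) (y := 2 ^ 24)
    rw [this] at h2; exact h2
  · intro j hj; exact key (h3 j hj)
  · intro j hj; exact key (h4 j hj)

theorem nm_spec {c : ℕ} (hc : isIn c = true) {t t' : ℕ} (ht : c.testBit t = true)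
    (h : (nb t).testBit t' = true) : (ent c).nm.testBit t' = true := by
  obtain ⟨h1, h2⟩ := ent_chk hc
  obtain ⟨-, h3, h4, -⟩ := chkEnt_unfold h1
  rw [h2] at h3 h4
  have := h4 t (lt_of_testBit h3 ht) ht
  rw [← this, Nat.testBit_or, h, Bool.true_or]

theorem sep_of_sepAll : ∀ l : List ℕ, (∀ c ∈ l, isIn c = true) → sepAll l = true →
    l.Pairwise Sep := by
  intro l
  induction l with
  | nil => intro _ _; exact List.Pairwise.nil
  | cons c l ih =>
    intro hin h
    simp only [sepAll, Bool.and_eq_true, nbeq] at h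
    obtain ⟨⟨h1, h2⟩, h3⟩ := h
    refine List.Pairwise.cons ?_ (ih (fun c' hc' => hin c' (List.mem_cons_of_mem _ hc')) h3)
    intro c' hc' t t' ht ht'
    have hor : (orAll l).testBit t' = true := (testBit_orAll l t').mpr ⟨c', hc', ht'⟩
    constructor
    · rintro rfl
      have := and_zero h1 ht
      rw [this] at hor; simp at hor
    · by_contra hne
      rw [Bool.not_eq_false] at hne
      have := and_zero h2 (nm_spec (hin c List.mem_cons_self) ht hne)
      rw [this] at hor; simp at hor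

theorem testBit_cl (j t : ℕ) : (cl j).testBit t = true ↔ (nb j).testBit t = true ∨ t = j := by
  rw [cl, Nat.testBit_or, Bool.or_eq_true, Nat.testBit_two_pow, decide_eq_true_eq]
  constructor
  · rintro (h | h)
    · exact Or.inl h
    · exact Or.inr h.symm
  · rintro (h | h)
    · exact Or.inl h
    · exact Or.inr h.symm

/-- the components after selecting `u` in `c` -/
structure Kids (c u : ℕ) (ks : List ℕ) : Prop where
  inn : ∀ c' ∈ ks, isIn c' = true
  mem : ∀ t, (∃ c' ∈ ks, c'.testBit t = true) ↔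
    (c.testBit t = true ∧ t ≠ u ∧ (nb u).testBit t = false)
  sep : ks.Pairwise Sep

/-- the components after deleting `a` from `c` -/
structure EKids (c a : ℕ) (ks : List ℕ) : Prop where
  inn : ∀ c' ∈ ks, isIn c' = true
  mem : ∀ t, (∃ c' ∈ ks, c'.testBit t = true) ↔ (c.testBit t = true ∧ t ≠ a)
  sep : ks.Pairwise Sep

theorem kids_of_chk {e : Ent} {t : ℕ × ℕ × List ℕ} (h : chkMove e t = true) :
    e.m.testBit t.1 = true ∧ Kids e.m t.1 t.2.2 ∧
    (e.psi ≤ psiSum t.2.2 + 8 + e.sig ∨ chkReply e t.2.1 t.2.2 = true) := by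
  simp only [chkMove, Bool.and_eq_true, nbeq, List.all_eq_true,
    Bool.or_eq_true, Nat.ble_eq] at h
  obtain ⟨⟨⟨⟨⟨⟨h1, h2⟩, h3⟩, h4⟩, h5⟩, h6⟩, h7⟩ := h
  refine ⟨h1, ⟨h3, ?_, sep_of_sepAll _ h3 h6⟩, h7⟩
  intro s
  rw [← testBit_orAll]
  constructor
  · intro hs
    have h8 := and_zero h4 hs
    have h9 : ¬ ((nb t.1).testBit s = true ∨ s = t.1) := by
      rw [← testBit_cl, h8]; simp
    rw [not_or, Bool.not_eq_true] at h9
    refine ⟨?_, h9.2, h9.1⟩
    rw [← h5, Nat.testBit_or, hs, Bool.true_or]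
  · rintro ⟨hs1, hs2, hs3⟩
    rw [← h5, Nat.testBit_or, Bool.or_eq_true] at hs1
    rcases hs1 with hs1 | hs1
    · exact hs1
    · exfalso
      rw [Nat.testBit_and, Bool.and_eq_true] at hs1
      rcases (testBit_cl _ _).mp hs1.2 with h | h
      · rw [h] at hs3; simp at hs3
      · exact hs2 h

theorem ekids_of_chk {e : Ent} {t : ℕ × List ℕ} (h : chkEr e t = true) :
    EKids e.m t.1 t.2 ∧ e.psi ≤ psiSum t.2 ∧ ∀ c ∈ t.2, sig c ≤ e.sig := by
  simp only [chkEr, Bool.and_eq_true, nbeq, List.all_eq_true,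
    Nat.ble_eq] at h
  obtain ⟨⟨⟨⟨⟨⟨⟨h1, h2⟩, h3⟩, h4⟩, h5⟩, h6⟩, h7⟩, h8⟩ := h
  refine ⟨⟨h3, ?_, sep_of_sepAll _ h3 h6⟩, h7, h8⟩
  intro s
  rw [← testBit_orAll]
  constructor
  · intro hs
    have h8 := and_zero h4 hs
    rw [Nat.testBit_two_pow, decide_eq_false_iff_not] at h8
    refine ⟨?_, fun h => h8 h.symm⟩
    rw [← h5, Nat.testBit_or, hs, Bool.true_or]
  · rintro ⟨hs1, hs2⟩
    rw [← h5, Nat.testBit_or, Bool.or_eq_true] at hs1
    rcases hs1 with hs1 | hs1
    · exact hs1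
    · exfalso
      rw [Nat.testBit_two_pow, decide_eq_true_eq] at hs1
      exact hs2 hs1.symm

theorem mvOf_mem {e : Ent} {u : ℕ} {t : ℕ × ℕ × List ℕ} (ht : t ∈ e.mv) (htu : t.1 = u) :
    ∃ t' ∈ e.mv, t'.1 = u ∧ mvOf e u = t'.2.2 := by
  unfold mvOf
  cases h : e.mv.find? (fun t => Nat.beq t.1 u) with
  | none =>
    exfalso
    rw [List.find?_eq_none] at h
    have := h t ht
    rw [htu] at this
    simp [Nat.beq_refl] at this
  | some t' =>
    have h1 := List.mem_of_find?_eq_some h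
    have h2 := List.find?_some h
    simp only [nbeq] at h2
    exact ⟨t', h1, h2, rfl⟩

theorem mvOf_kids {c u : ℕ} (hc : isIn c = true) (hu : c.testBit u = true) :
    Kids c u (mvOf (ent c) u) := by
  obtain ⟨h1, h2⟩ := ent_chk hc
  obtain ⟨-, h3, -, h5, -, -, h7, -, -⟩ := chkEnt_unfold h1
  rw [h2] at h3 h5
  obtain ⟨t, ht, htu⟩ := h5 u (lt_of_testBit h3 hu) hu
  obtain ⟨t', ht', htu', hmv⟩ := mvOf_mem ht htu
  obtain ⟨-, hk, -⟩ := kids_of_chk (h7 t' ht')
  rw [h2, htu'] at hk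
  rw [hmv]; exact hk

/-- every move of Diminisher -/
theorem dim_move {c u : ℕ} (hc : isIn c = true) (hu : c.testBit u = true) :
    ∃ ks, Kids c u ks ∧ (psi c ≤ psiSum ks + 8 + sig c ∨
      ∃ w c' ks', w ≠ 0 ∧ w ≠ 3 ∧ c' ∈ ks ∧ c'.testBit w = true ∧ Kids c' w ks' ∧
        psi c ≤ psiSum ks' + psiSum (ks.erase c') + 16 ∧
        (∀ d ∈ ks', sig d ≤ sig c) ∧ (∀ d ∈ ks.erase c', sig d ≤ sig c)) := by
  obtain ⟨h1, h2⟩ := ent_chk hc
  obtain ⟨-, h3, -, h5, -, -, h7, -, -⟩ := chkEnt_unfold h1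
  rw [h2] at h3 h5
  obtain ⟨t, ht, htu⟩ := h5 u (lt_of_testBit h3 hu) hu
  obtain ⟨-, hk, hD⟩ := kids_of_chk (h7 t ht)
  rw [h2, htu] at hk
  refine ⟨t.2.2, hk, ?_⟩
  rcases hD with hD | hD
  · left; exact hD
  · right
    simp only [chkReply, isBd, Bool.and_eq_true, Bool.not_eq_true', Bool.or_eq_false_iff,
      List.any_eq_true, List.all_eq_true, Nat.ble_eq] at hD
    obtain ⟨⟨hw1, hw2⟩, c', hc', ⟨hcw, ⟨h8, h9⟩, h10⟩⟩ := hD
    refine ⟨t.2.1, c', mvOf (ent c') t.2.1, ?_, ?_, hc', hcw,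
      mvOf_kids (hk.inn c' hc') hcw, h8, h9, h10⟩
    · intro h; rw [h] at hw1; simp at hw1
    · intro h; rw [h] at hw2; simp at hw2

/-- the move of the Sweller -/
theorem swell_move {c : ℕ} (hc : isIn c = true) :
    ∃ u ks, u ≠ 0 ∧ u ≠ 3 ∧ c.testBit u = true ∧ Kids c u ks ∧
      psi c + sig c ≤ 8 + psiSum ks ∧ ∀ d ∈ ks, psi c + sig d ≤ 8 + psiSum ks := by
  obtain ⟨h1, h2⟩ := ent_chk hc
  obtain ⟨-, h3, -, h5, -, -, h7, -, h9⟩ := chkEnt_unfold h1
  simp only [chkS, isBd, Bool.and_eq_true, Bool.not_eq_true', Bool.or_eq_false_iff,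
    List.all_eq_true, Nat.ble_eq] at h9
  obtain ⟨⟨⟨hw1, hw2⟩, hv⟩, h10, h11⟩ := h9
  rw [h2] at hv
  refine ⟨(ent c).v, mvOf (ent c) (ent c).v, ?_, ?_, hv, mvOf_kids hc hv, h10, h11⟩
  · intro h; rw [h] at hw1; simp at hw1
  · intro h; rw [h] at hw2; simp at hw2

/-- deletion of a border vertex -/
theorem erase_border {c a : ℕ} (hc : isIn c = true) (ha : a = 0 ∨ a = 3)
    (hca : c.testBit a = true) :
    ∃ ks, EKids c a ks ∧ psi c ≤ psiSum ks ∧ ∀ d ∈ ks, sig d ≤ sig c := by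
  obtain ⟨h1, h2⟩ := ent_chk hc
  obtain ⟨-, -, -, -, h5, h6, -, h8, -⟩ := chkEnt_unfold h1
  rw [h2] at h5 h6
  have : ∃ t ∈ (ent c).er, t.1 = a := by
    rcases ha with rfl | rfl
    · exact h5 hca
    · exact h6 hca
  obtain ⟨t, ht, hta⟩ := this
  have h := ekids_of_chk (h8 t ht)
  rw [h2, hta] at h
  exact ⟨t.2, h⟩

theorem nb_lt' (t : ℕ) : nb t < 2 ^ 24 := by
  by_cases ht : t < 24
  · have := nb_lt
    rw [List.all_eq_true] at this
    have h := this t (List.mem_range.mpr ht)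
    rw [Nat.blt_eq] at h
    exact h
  · have : nb t = 0 := by
      unfold nb
      rw [List.getD_eq_default]
      simp [nbl]; omega
    rw [this]; norm_num

theorem nb_symm' (t t' : ℕ) : (nb t).testBit t' = true → (nb t').testBit t = true := by
  intro h
  have ht' : t' < 24 := lt_of_testBit (nb_lt' t) h
  have ht : t < 24 := by
    by_contra hlt
    have : nb t = 0 := by
      unfold nb
      rw [List.getD_eq_default]
      simp [nbl]; omega
    rw [this] at h; simp at h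
  have := nb_symm
  rw [List.all_eq_true] at this
  have h1 := this t (List.mem_range.mpr ht)
  rw [List.all_eq_true] at h1
  have h2 := h1 t' (List.mem_range.mpr ht')
  rw [beq_iff_eq] at h2
  rw [← h2]; exact h

theorem Sep.symm {c c' : ℕ} (h : Sep c c') : Sep c' c := by
  intro t t' ht ht'
  obtain ⟨h1, h2⟩ := h t' t ht' ht
  refine ⟨h1.symm, ?_⟩
  by_contra hne
  rw [Bool.not_eq_false] at hne
  rw [nb_symm' _ _ hne] at h2
  simp at h2

end Pool.Agent.Helper60.Idg
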