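import Pool.Agent.Helper60.Idg.LowPos
import Pool.Agent.Helper60.Idg.Upper

/-!
The lower bound: the Sweller's strategy on the chain, and the chain is a subcubic tree.
-/

namespace Pool.Agent.Helper60.Idg

open scoped Classical

theorem Rep.nil_of_empty {k : ℕ} {L : List (ℕ × ℕ)} (h : Rep (∅ : Finset (Fin (24 * k))) L) :
    L = [] := by
  cases L with
  | nil => rfl
  | cons e L =>
    exfalso
    obtain ⟨i, c⟩ := e
    obtain ⟨u, ks, hu0, hu3, hcu, hk, -⟩ := swell_move (h.inn _ List.mem_cons_self).2
    obtain ⟨v, hv, -⟩ := h.moveAt hcu hu0 hu3 hk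
    simp at hv

theorem exists_max_sig : ∀ (L : List (ℕ × ℕ)), L ≠ [] → ∃ e ∈ L, ∀ e' ∈ L, sig e'.2 ≤ sig e.2 := by
  intro L
  induction L with
  | nil => intro h; exact absurd rfl h
  | cons a L ih =>
    intro _
    by_cases hL : L = []
    · subst hL; exact ⟨a, by simp, by simp⟩
    · obtain ⟨c, hc, hmax⟩ := ih hL
      by_cases hac : sig a.2 ≤ sig c.2
      · refine ⟨c, List.mem_cons_of_mem _ hc, ?_⟩
        intro a' ha'
        rcases List.mem_cons.mp ha' with rfl | h
        · exact hac
        · exact hmax a' h
      · refine ⟨a, List.mem_cons_self, ?_⟩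
        intro a' ha'
        rcases List.mem_cons.mp ha' with rfl | h
        · exact le_refl _
        · exact (hmax a' h).trans (le_of_lt (not_le.mp hac))

theorem lower {k : ℕ} : ∀ (n : ℕ) (A : Finset (Fin (24 * k))) (L : List (ℕ × ℕ)), A.card ≤ n →
    Rep A L →
    (∀ f, A.card ≤ f → psiL L ≤ 8 * res (chain k) f false A) ∧
    (∀ g, (∀ e ∈ L, sig e.2 ≤ g) → ∀ f, A.card ≤ f →
      psiL L ≤ 8 * res (chain k) f true A + g) := by
  intro n
  induction n using Nat.strong_induction_on with
  | _ n ih =>
  intro A L hn hR
  by_cases hA : A.Nonempty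
  · constructor
    · -- Sweller to move
      intro f hf
      have hf0 : 0 < A.card := Finset.card_pos.mpr hA
      obtain ⟨f, rfl⟩ : ∃ f', f = f' + 1 := ⟨f - 1, by omega⟩
      have hLne : L ≠ [] := by
        rintro rfl
        obtain ⟨v, hv⟩ := hA
        rw [hR.mem] at hv
        simp at hv
      obtain ⟨⟨i, c⟩, he, hmax⟩ := exists_max_sig L hLne
      simp only at hmax
      obtain ⟨L1, L2, rfl⟩ := List.append_of_mem he
      have hR' := hR.perm List.perm_middle
      have hin := (hR'.inn (i, c) List.mem_cons_self).2
      obtain ⟨u, ks, hu0, hu3, hcu, hk, hs1, hs2⟩ := swell_move hin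
      simp only at hcu hk hs1 hs2
      obtain ⟨v, hv, hRv⟩ := hR'.moveAt hcu hu0 hu3 hk
      have hcard := del_card (G := chain k) hv
      have hg := (ih (del (chain k) A v).card (by omega) (del (chain k) A v) _ le_rfl hRv).2
        (8 + psiSum ks - psi c) (by
          intro e he'
          rw [List.mem_append, List.mem_map] at he'
          rcases he' with ⟨c', hc', rfl⟩ | he'
          · have := hs2 c' hc'
            simp only
            omega
          · have h1 := hmax e (by
              rw [List.mem_append] at he' ⊢
              rcases he' with h | h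
              · exact Or.inl h
              · exact Or.inr (List.mem_cons_of_mem _ h))
            omega) f (by omega)
      rw [psiL_append, psiL_map] at hg
      rw [psiL_perm List.perm_middle, psiL_cons]
      simp only
      have hle : 1 + res (chain k) f true (del (chain k) A v) ≤ res (chain k) (f + 1) false A := by
        rw [res, dif_pos hA, if_neg (by simp)]
        exact Finset.le_sup' (fun v => 1 + res (chain k) f true (del (chain k) A v)) hv
      omega
    · -- Diminisher to move
      intro g hg f hf
      have hf0 : 0 < A.card := Finset.card_pos.mpr hA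
      obtain ⟨f, rfl⟩ : ∃ f', f = f' + 1 := ⟨f - 1, by omega⟩
      rw [res, dif_pos hA, if_pos rfl]
      obtain ⟨v, hv, hve⟩ := Finset.exists_mem_eq_inf' hA
        (fun v => 1 + res (chain k) f false (del (chain k) A v))
      rw [hve]
      obtain ⟨c, L0, hp, hcin, hcu, hmv⟩ := hR.move hv
      obtain ⟨ks, hk, hD⟩ := dim_move hcin hcu
      obtain ⟨L0', hR', hpsi, hsg⟩ := hmv ks hk
      have hcard := del_card (G := chain k) hv
      have hgc : sig c ≤ g := hg _ (hp.symm.subset List.mem_cons_self)
      have hgL0 : ∀ e ∈ L0, sig e.2 ≤ g := fun e he =>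
        hg e (hp.symm.subset (List.mem_cons_of_mem _ he))
      rw [psiL_perm hp, psiL_cons]
      simp only
      rcases hD with hD | ⟨w, c', ks', hw0, hw3, hc', hcw, hk', hle, hs1, hs2⟩
      · have h1 := (ih (del (chain k) A v).card (by omega) (del (chain k) A v) _ le_rfl hR').1
          f (by omega)
        rw [psiL_append, psiL_map] at h1
        omega
      · -- the Sweller replies at `w` in `c'`
        have hpk : ks.Perm (c' :: ks.erase c') := List.perm_cons_erase hc'
        have hR2 : Rep (del (chain k) A v)
            ((v.val / 24, c') :: ((ks.erase c').map (fun c' => (v.val / 24, c')) ++ L0')) := by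
          refine hR'.perm ?_
          exact List.Perm.append_right L0' (hpk.map (fun c' => (v.val / 24, c')))
        obtain ⟨y, hy, hRy⟩ := hR2.moveAt hcw hw0 hw3 hk'
        have hcard' := del_card (G := chain k) hy
        have hne : (del (chain k) A v).Nonempty := ⟨y, hy⟩
        have hf1 : 0 < (del (chain k) A v).card := Finset.card_pos.mpr hne
        obtain ⟨f, rfl⟩ : ∃ f', f = f' + 1 := ⟨f - 1, by omega⟩
        have h1 := (ih (del (chain k) (del (chain k) A v) y).card (by omega) _ _ le_rfl hRy).2 g (by
          intro e he
          rw [List.mem_append, List.mem_map] at he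
          rcases he with ⟨d, hd, rfl⟩ | he
          · exact (hs1 d hd).trans hgc
          · rw [List.mem_append, List.mem_map] at he
            rcases he with ⟨d, hd, rfl⟩ | he
            · exact (hs2 d hd).trans hgc
            · exact hsg g hgL0 e he) f (by omega)
        rw [psiL_append, psiL_map, psiL_append, psiL_map] at h1
        have hle2 : 1 + res (chain k) f true (del (chain k) (del (chain k) A v) y) ≤
            res (chain k) (f + 1) false (del (chain k) A v) := by
          rw [res, dif_pos hne, if_neg (by simp)]
          exact Finset.le_sup'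
            (fun y => 1 + res (chain k) f true (del (chain k) (del (chain k) A v) y)) hy
        omega
  · rw [Finset.not_nonempty_iff_eq_empty] at hA
    subst hA
    have := hR.nil_of_empty
    subst this
    constructor
    · intro f _; simp [psiL]
    · intro g _ f _; simp [psiL]

theorem rep_univ (k : ℕ) : Rep (Finset.univ : Finset (Fin (24 * k)))
    ((List.range k).map (fun i => (i, 16777215))) := by
  refine ⟨?_, ?_, ?_⟩
  · intro v
    simp only [Finset.mem_univ, true_iff]
    have hv := v.isLt
    refine ⟨(v.val / 24, 16777215), List.mem_map.mpr ⟨v.val / 24, ?_, rfl⟩, rfl, ?_⟩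
    · rw [List.mem_range]; omega
    · have h : (16777215 : ℕ) = 2 ^ 24 - 1 := by norm_num
      rw [h, Nat.testBit_two_pow_sub_one]
      simp [Nat.mod_lt]
  · rw [List.pairwise_map]
    refine List.Pairwise.imp ?_ (List.nodup_range (n := k))
    intro a b hab h
    exact absurd h hab
  · intro e he
    rw [List.mem_map] at he
    obtain ⟨i, hi, rfl⟩ := he
    exact ⟨List.mem_range.mp hi, full_in.1⟩

theorem psiL_univ (k : ℕ) : psiL ((List.range k).map (fun i => (i, 16777215))) = 100 * k := by
  unfold psiL
  rw [List.map_map]
  have : ((fun e : ℕ × ℕ => psi e.2) ∘ fun i => (i, 16777215)) = fun _ => 100 := by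
    funext i
    exact full_in.2.1
  rw [this]
  simp [mul_comm]

theorem lower_swell (k : ℕ) : 25 * k ≤ 2 * Iswell (chain k) := by
  have h := (lower _ _ _ le_rfl (rep_univ k)).1 (Fintype.card (Fin (24 * k))) (by simp)
  rw [psiL_univ] at h
  have h3 : Iswell (chain k) = res (chain k) (Fintype.card (Fin (24 * k))) false Finset.univ := by
    rw [Iswell, play_eq, legal_empty]; simp
  rw [h3]
  omega

theorem lower_dim (k : ℕ) : 25 * k ≤ 2 * Idim (chain k) + 1 := by
  have h := (lower _ _ _ le_rfl (rep_univ k)).2 4 (by
    intro e he
    rw [List.mem_map] at he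
    obtain ⟨i, hi, rfl⟩ := he
    exact full_in.2.2.le) (Fintype.card (Fin (24 * k))) (by simp)
  rw [psiL_univ] at h
  have h3 : Idim (chain k) = res (chain k) (Fintype.card (Fin (24 * k))) true Finset.univ := by
    rw [Idim, play_eq, legal_empty]; simp
  rw [h3]
  omega

end Pool.Agent.Helper60.Idg
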