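import Pool.Agent.Helper60.Idg.Graph

/-!
Positions as disjoint unions of branches, and the effect of a move.
-/

namespace Pool.Agent.Helper60.Idg

open scoped Classical

variable {V : Type} (G : SimpleGraph V)

/-- `Pos G L A`: `A` is the disjoint union of mutually non-adjacent trees of shapes `L`. -/
inductive Pos : List B → Finset V → Prop
  | nil : Pos [] ∅
  | cons {b : B} {o : Option V} {S A : Finset V} {L : List B} :
      Br G b o S → Pos L A → Disjoint S A → (∀ x ∈ S, ∀ y ∈ A, ¬ G.Adj x y) →
      Pos (b :: L) (S ∪ A)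

/-- the position after selecting `v` -/
noncomputable def del (A : Finset V) (v : V) : Finset V :=
  A.filter (fun w => w ≠ v ∧ ¬ G.Adj v w)

variable {G}

theorem Pos.append {L L' : List B} {A A' : Finset V} (h : Pos G L A) (h' : Pos G L' A')
    (hd : Disjoint A A') (ha : ∀ x ∈ A, ∀ y ∈ A', ¬ G.Adj x y) : Pos G (L ++ L') (A ∪ A') := by
  induction h with
  | nil => simpa using h'
  | @cons b o S A L hb hL hd1 ha1 ih =>
    have hd2 : Disjoint A A' := by
      rw [Finset.disjoint_left] at hd ⊢
      intro x hx hx'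
      exact hd (Finset.mem_union_right _ hx) hx'
    have ih' := ih hd2 (fun x hx y hy => ha x (Finset.mem_union_right _ hx) y hy)
    rw [Finset.union_assoc, List.cons_append]
    refine Pos.cons hb ih' ?_ ?_
    · rw [Finset.disjoint_left] at hd hd1 ⊢
      intro x hx hx'
      rw [Finset.mem_union] at hx'
      rcases hx' with hx' | hx'
      · exact hd1 hx hx'
      · exact hd (Finset.mem_union_left _ hx) hx'
    · intro x hx y hy
      rw [Finset.mem_union] at hy
      rcases hy with hy | hy
      · exact ha1 x hx y hy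
      · exact ha x (Finset.mem_union_left _ hx) y hy

theorem Pos.perm {L L' : List B} (hp : L.Perm L') : ∀ {A : Finset V}, Pos G L A → Pos G L' A := by
  induction hp with
  | nil => intro A h; exact h
  | cons b _ ih =>
    intro A h
    cases h with
    | cons hb hL hd ha => exact Pos.cons hb (ih hL) hd ha
  | swap a b l =>
    intro A h
    cases h with
    | @cons _ _ S1 A1 _ hb hL hd ha =>
      cases hL with
      | @cons _ _ S2 A2 _ hb2 hL2 hd2 ha2 =>
        have e : S1 ∪ (S2 ∪ A2) = S2 ∪ (S1 ∪ A2) := by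
          rw [← Finset.union_assoc, ← Finset.union_assoc, Finset.union_comm S1 S2]
        rw [e]
        rw [Finset.disjoint_left] at hd hd2
        refine Pos.cons hb2 (Pos.cons hb hL2 ?_ ?_) ?_ ?_
        · rw [Finset.disjoint_left]
          intro x hx hx'
          exact hd hx (Finset.mem_union_right _ hx')
        · intro x hx y hy
          exact ha x hx y (Finset.mem_union_right _ hy)
        · rw [Finset.disjoint_left]
          intro x hx hx'
          rw [Finset.mem_union] at hx'
          rcases hx' with hx' | hx'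
          · exact hd hx' (Finset.mem_union_left _ hx)
          · exact hd2 hx hx'
        · intro x hx y hy hadj
          rw [Finset.mem_union] at hy
          rcases hy with hy | hy
          · exact ha y hy x (Finset.mem_union_left _ hx) hadj.symm
          · exact ha2 x hx y hy hadj
  | trans _ _ ih1 ih2 => intro A h; exact ih2 (ih1 h)

theorem Pos.exists_mem {L : List B} {A : Finset V} (h : Pos G L A) {u : V} (hu : u ∈ A) :
    ∃ b L0 o S A0, L.Perm (b :: L0) ∧ Br G b o S ∧ Pos G L0 A0 ∧ Disjoint S A0 ∧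
      (∀ x ∈ S, ∀ y ∈ A0, ¬ G.Adj x y) ∧ A = S ∪ A0 ∧ u ∈ S := by
  induction h with
  | nil => simp at hu
  | @cons b o S A L hb hL hd ha ih =>
    rw [Finset.mem_union] at hu
    rcases hu with hu | hu
    · exact ⟨b, L, o, S, A, List.Perm.refl _, hb, hL, hd, ha, rfl, hu⟩
    · obtain ⟨b', L0, o', S', A0, hp, hb', hL0, hd', ha', rfl, hu'⟩ := ih hu
      rw [Finset.disjoint_left] at hd hd'
      refine ⟨b', b :: L0, o', S', S ∪ A0, (hp.cons b).trans (List.Perm.swap _ _ _), hb',
        Pos.cons hb hL0 ?_ ?_, ?_, ?_, ?_, hu'⟩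
      · rw [Finset.disjoint_left]
        intro x hx hx'
        exact hd hx (Finset.mem_union_right _ hx')
      · intro x hx y hy
        exact ha x hx y (Finset.mem_union_right _ hy)
      · rw [Finset.disjoint_left]
        intro x hx hx'
        rw [Finset.mem_union] at hx'
        rcases hx' with hx' | hx'
        · exact hd hx' (Finset.mem_union_left _ hx)
        · exact hd' hx hx'
      · intro x hx y hy hadj
        rw [Finset.mem_union] at hy
        rcases hy with hy | hy
        · exact ha y hy x (Finset.mem_union_left _ hx) hadj.symm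
        · exact ha' x hx y hy hadj
      · rw [← Finset.union_assoc, ← Finset.union_assoc, Finset.union_comm S S']

/-- remove the root of a branch -/
theorem Br.ch {b : B} {o : Option V} {S : Finset V} (h : Br G b o S) :
    Pos G (ch b) (S.filter (fun t => o ≠ some t)) := by
  cases h with
  | e => simpa [Idg.ch] using Pos.nil
  | @n l r o1 o2 S1 S2 w h1 h2 hw1 hw2 hd ha1 ha2 ha =>
    have e : (insert w (S1 ∪ S2)).filter (fun t => some w ≠ some t) = S1 ∪ (S2 ∪ ∅) := by
      ext t
      simp only [Finset.mem_filter, Finset.mem_insert, Finset.mem_union, ne_eq,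
        Option.some.injEq, Finset.notMem_empty, or_false]
      constructor
      · rintro ⟨rfl | h, h'⟩
        · exact absurd rfl h'
        · exact h
      · intro h
        refine ⟨Or.inr h, ?_⟩
        rintro rfl
        rcases h with h | h
        · exact hw1 h
        · exact hw2 h
    rw [e]
    exact Pos.cons h1 (Pos.cons h2 Pos.nil (by simp) (by simp)) (by simpa using hd)
      (by simpa using ha)

theorem V3.kids {x y z : B} {u : V} {T1 T2 T3 : Finset V} (h : V3 G x y z u T1 T2 T3) :
    Pos G (kids (x, y, z)) (del G (full u T1 T2 T3) u) := by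
  obtain ⟨o1, o2, o3, h1, h2, h3, h4, h5, h6⟩ := h.ex
  have hn1 := h.n1
  have hn2 := h.n2
  have hn3 := h.n3
  have e : del G (full u T1 T2 T3) u = T1.filter (fun t => o1 ≠ some t) ∪
      (T2.filter (fun t => o2 ≠ some t) ∪ T3.filter (fun t => o3 ≠ some t)) := by
    ext t
    simp only [del, full, Finset.mem_filter, Finset.mem_insert, Finset.mem_union, ne_eq]
    constructor
    · rintro ⟨rfl | ht | ht | ht, htu, hadj⟩
      · exact absurd rfl htu
      · left; exact ⟨ht, fun he => hadj ((h4 t ht).mpr he)⟩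
      · right; left; exact ⟨ht, fun he => hadj ((h5 t ht).mpr he)⟩
      · right; right; exact ⟨ht, fun he => hadj ((h6 t ht).mpr he)⟩
    · rintro (⟨ht, hr⟩ | ⟨ht, hr⟩ | ⟨ht, hr⟩)
      · refine ⟨Or.inr (Or.inl ht), ?_, fun hadj => hr ((h4 t ht).mp hadj)⟩
        rintro rfl; exact hn1 ht
      · refine ⟨Or.inr (Or.inr (Or.inl ht)), ?_, fun hadj => hr ((h5 t ht).mp hadj)⟩
        rintro rfl; exact hn2 ht
      · refine ⟨Or.inr (Or.inr (Or.inr ht)), ?_, fun hadj => hr ((h6 t ht).mp hadj)⟩
        rintro rfl; exact hn3 ht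
  rw [e, Idg.kids]
  have d12 := Finset.disjoint_left.mp h.d12
  have d13 := Finset.disjoint_left.mp h.d13
  have d23 := Finset.disjoint_left.mp h.d23
  refine Pos.append h1.ch (Pos.append h2.ch h3.ch ?_ ?_) ?_ ?_
  · rw [Finset.disjoint_left]
    intro t ht ht'
    exact d23 (Finset.mem_filter.mp ht).1 (Finset.mem_filter.mp ht').1
  · intro s hs t ht
    exact h.a23 s (Finset.mem_filter.mp hs).1 t (Finset.mem_filter.mp ht).1
  · rw [Finset.disjoint_left]
    intro t ht ht'
    rw [Finset.mem_union] at ht'
    rcases ht' with ht' | ht'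
    · exact d12 (Finset.mem_filter.mp ht).1 (Finset.mem_filter.mp ht').1
    · exact d13 (Finset.mem_filter.mp ht).1 (Finset.mem_filter.mp ht').1
  · intro s hs t ht
    rw [Finset.mem_union] at ht
    rcases ht with ht | ht
    · exact h.a12 s (Finset.mem_filter.mp hs).1 t (Finset.mem_filter.mp ht).1
    · exact h.a13 s (Finset.mem_filter.mp hs).1 t (Finset.mem_filter.mp ht).1

theorem Br.toV3 {l r : B} {o : Option V} {S : Finset V} (h : Br G (.n l r) o S) :
    ∃ w S1 S2, S = insert w (S1 ∪ S2) ∧ V3 G l r .e w S1 S2 ∅ ∧ S = full w S1 S2 ∅ := by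
  cases h with
  | @n _ _ o1 o2 S1 S2 w h1 h2 hw1 hw2 hd ha1 ha2 ha =>
    refine ⟨w, S1, S2, rfl, ⟨⟨o1, o2, none, h1, h2, Br.e, ha1, ha2, by simp⟩, hw1, hw2, by simp,
      hd, by simp, by simp, ha, by simp, by simp⟩, ?_⟩
    simp [full]

theorem del_union {S A : Finset V} {u : V} (hu : u ∈ S)
    (hd : Disjoint S A) (ha : ∀ x ∈ S, ∀ y ∈ A, ¬ G.Adj x y) :
    del G (S ∪ A) u = del G S u ∪ A := by
  ext t
  simp only [del, Finset.mem_filter, Finset.mem_union]
  constructor
  · rintro ⟨ht | ht, h1, h2⟩
    · exact Or.inl ⟨ht, h1, h2⟩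
    · exact Or.inr ht
  · rintro (⟨ht, h1, h2⟩ | ht)
    · exact ⟨Or.inl ht, h1, h2⟩
    · refine ⟨Or.inr ht, ?_, ha u hu t ht⟩
      rintro rfl
      exact Finset.disjoint_left.mp hd hu ht

/-- coverage: every move is described by a view -/
theorem Pos.move {L : List B} {A : Finset V} (h : Pos G L A) {u : V} (hu : u ∈ A) :
    ∃ b L0 v, L.Perm (b :: L0) ∧ v ∈ vws .e b ∧ Pos G (kids v ++ L0) (del G A u) := by
  obtain ⟨b, L0, o, S, A0, hp, hb, hL0, hd, ha, rfl, huS⟩ := h.exists_mem hu
  cases b with
  | e => cases hb; simp at huS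
  | n l r =>
    obtain ⟨w, S1, S2, hS, hV, hfull⟩ := hb.toV3
    rw [hS] at huS
    obtain ⟨v, hv, T1, T2, T3, hvV, hvf⟩ := cover (.n l r) .e l r rfl w S1 S2 ∅ hV u huS
    refine ⟨.n l r, L0, v, hp, hv, ?_⟩
    rw [← hS] at huS
    rw [del_union huS hd ha]
    have hk := hvV.kids
    rw [hvf, ← hfull] at hk
    refine Pos.append hk hL0 ?_ ?_
    · rw [Finset.disjoint_left] at hd ⊢
      intro x hx hx'
      exact hd (Finset.mem_filter.mp hx).1 hx'
    · intro x hx y hy
      exact ha x (Finset.mem_filter.mp hx).1 y hy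

/-- realization: every view is a move -/
theorem Pos.realize {b : B} {L0 : List B} {A : Finset V} (h : Pos G (b :: L0) A)
    {v : B × B × B} (hv : v ∈ vws .e b) :
    ∃ u ∈ A, Pos G (kids v ++ L0) (del G A u) := by
  cases h with
  | @cons _ o S A0 _ hb hL0 hd ha =>
    cases b with
    | e => simp [vws] at hv
    | n l r =>
      obtain ⟨w, S1, S2, hS, hV, hfull⟩ := hb.toV3
      obtain ⟨u, hu, T1, T2, T3, hvV, hvf⟩ :=
        Idg.realize (.n l r) .e l r rfl w S1 S2 ∅ hV v hv
      rw [← hS] at hu
      refine ⟨u, Finset.mem_union_left _ hu, ?_⟩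
      rw [del_union hu hd ha]
      have hk := hvV.kids
      rw [hvf, ← hfull] at hk
      refine Pos.append hk hL0 ?_ ?_
      · rw [Finset.disjoint_left] at hd ⊢
        intro x hx hx'
        exact hd (Finset.mem_filter.mp hx).1 hx'
      · intro x hx y hy
        exact ha x (Finset.mem_filter.mp hx).1 y hy

end Pool.Agent.Helper60.Idg
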