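import Pool.Agent.Helper60.Idg.Game

/-!
Every finite subcubic tree is represented by a branch.
-/

namespace Pool.Agent.Helper60.Idg

open scoped Classical

/-- transport along an embedding of graphs -/
theorem Br.map {V W : Type} {G : SimpleGraph V} {H : SimpleGraph W} (f : G ↪g H) {b : B}
    {o : Option V} {S : Finset V} (h : Br G b o S) :
    Br H b (o.map f) (S.map f.toEmbedding) := by
  induction h with
  | e => simpa using Br.e
  | @n l r o1 o2 S1 S2 w h1 h2 hw1 hw2 hd ha1 ha2 ha ih1 ih2 =>
    rw [Finset.map_insert, Finset.map_union]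
    refine Br.n (f w) ih1 ih2 ?_ ?_ ?_ ?_ ?_ ?_
    · intro h
      rw [Finset.mem_map] at h
      obtain ⟨x, hx, hxe⟩ := h
      exact hw1 (by rwa [← f.injective hxe])
    · intro h
      rw [Finset.mem_map] at h
      obtain ⟨x, hx, hxe⟩ := h
      exact hw2 (by rwa [← f.injective hxe])
    · rwa [Finset.disjoint_map]
    · intro x hx
      rw [Finset.mem_map] at hx
      obtain ⟨y, hy, rfl⟩ := hx
      have := ha1 y hy
      rw [show f.toEmbedding y = f y from rfl, f.map_adj_iff, this]
      constructor
      · intro h; rw [h]; rfl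
      · intro h
        rw [Option.map_eq_some_iff] at h
        obtain ⟨a, ha, hae⟩ := h
        rw [ha, f.injective hae]
    · intro x hx
      rw [Finset.mem_map] at hx
      obtain ⟨y, hy, rfl⟩ := hx
      have := ha2 y hy
      rw [show f.toEmbedding y = f y from rfl, f.map_adj_iff, this]
      constructor
      · intro h; rw [h]; rfl
      · intro h
        rw [Option.map_eq_some_iff] at h
        obtain ⟨a, ha, hae⟩ := h
        rw [ha, f.injective hae]
    · intro x hx y hy
      rw [Finset.mem_map] at hx hy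
      obtain ⟨x', hx', rfl⟩ := hx
      obtain ⟨y', hy', rfl⟩ := hy
      rw [show f.toEmbedding x' = f x' from rfl, show f.toEmbedding y' = f y' from rfl,
        f.map_adj_iff]
      exact ha x' hx' y' hy'

theorem Br.root_some {V : Type} {G : SimpleGraph V} {b : B} {o : Option V} {S : Finset V}
    (h : Br G b o S) (hb : b ≠ .e) : ∃ w ∈ S, o = some w := by
  cases h with
  | e => exact absurd rfl hb
  | n w _ _ _ _ _ _ _ _ => exact ⟨w, Finset.mem_insert_self _ _, rfl⟩

theorem Br.empty {V : Type} {G : SimpleGraph V} {o : Option V} {S : Finset V}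
    (h : Br G .e o S) : S = ∅ ∧ o = none := by
  cases h; exact ⟨rfl, rfl⟩

/-- adding a leaf -/
theorem Br.add_leaf {V : Type} {G : SimpleGraph V} {b : B} {w : V} {A : Finset V}
    (h : Br G b (some w) A) {ℓ p : V} (hℓ : ℓ ∉ A) (hp : p ∈ A) (hadj : G.Adj ℓ p)
    (honly : ∀ x ∈ A, G.Adj ℓ x → x = p) (hfin : (G.neighborSet p).Finite)
    (hdeg : (G.neighborSet p).ncard ≤ 3) : ∃ b' w', Br G b' (some w') (insert ℓ A) := by
  cases b with
  | e => cases h
  | n l r =>
    obtain ⟨w0, S1, S2, hS, hV, hfull⟩ := h.toV3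
    rw [hS] at hp
    obtain ⟨v, hv, T1, T2, T3, hvV, hvf⟩ := cover (.n l r) .e l r rfl w0 S1 S2 ∅ hV p hp
    obtain ⟨x, y, z⟩ := v
    simp only at hvV
    have hAf : A = full p T1 T2 T3 := by rw [hvf, hfull]
    -- one of the three branches is empty
    have key : ∀ (x y z : B) (T1 T2 T3 : Finset V), V3 G x y z p T1 T2 T3 →
        A = full p T1 T2 T3 → z = .e → ∃ b' w', Br G b' (some w') (insert ℓ A) := by
      intro x y z T1 T2 T3 hvV hA hz
      subst hz
      obtain ⟨o1, o2, o3, h1, h2, h3, h4, h5, h6⟩ := hvV.ex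
      obtain ⟨hT3, ho3⟩ := h3.empty
      subst hT3
      have hB : Br G (.n x y) (some p) (insert p (T1 ∪ T2)) :=
        Br.n p h1 h2 hvV.n1 hvV.n2 hvV.d12 h4 h5 hvV.a12
      have hA' : A = insert p (T1 ∪ T2) := by rw [hA, full, Finset.union_empty]
      rw [← hA'] at hB
      refine ⟨.n .e (.n x y), ℓ, ?_⟩
      have := Br.n (G := G) ℓ Br.e hB (by simp) hℓ (by simp) (by simp) (by
        intro t ht
        constructor
        · intro ha; rw [honly t ht ha]
        · intro he
          simp only [Option.some.injEq] at he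
          rw [← he]; exact hadj) (by simp)
      rwa [Finset.empty_union] at this
    by_cases hz : z = .e
    · exact key x y z T1 T2 T3 hvV hAf hz
    by_cases hy : y = .e
    · exact key z x y T3 T1 T2 hvV.rot.rot
        (hAf.trans ((full_rot p T1 T2 T3).symm.trans (full_rot p T2 T3 T1).symm)) hy
    by_cases hx : x = .e
    · exact key y z x T2 T3 T1 hvV.rot (hAf.trans (full_rot p T1 T2 T3).symm) hx
    -- four neighbours: contradiction
    exfalso
    obtain ⟨o1, o2, o3, h1, h2, h3, h4, h5, h6⟩ := hvV.ex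
    obtain ⟨a, ha, rfl⟩ := h1.root_some hx
    obtain ⟨b, hb, rfl⟩ := h2.root_some hy
    obtain ⟨c, hc, rfl⟩ := h3.root_some hz
    have hpa := (h4 a ha).mpr rfl
    have hpb := (h5 b hb).mpr rfl
    have hpc := (h6 c hc).mpr rfl
    have hab : a ≠ b := by rintro rfl; exact Finset.disjoint_left.mp hvV.d12 ha hb
    have hac : a ≠ c := by rintro rfl; exact Finset.disjoint_left.mp hvV.d13 ha hc
    have hbc : b ≠ c := by rintro rfl; exact Finset.disjoint_left.mp hvV.d23 hb hc
    have haA : a ∈ A := by rw [hAf]; simp [full, ha]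
    have hbA : b ∈ A := by rw [hAf]; simp [full, hb]
    have hcA : c ∈ A := by rw [hAf]; simp [full, hc]
    have hla : ℓ ≠ a := by rintro rfl; exact hℓ haA
    have hlb : ℓ ≠ b := by rintro rfl; exact hℓ hbA
    have hlc : ℓ ≠ c := by rintro rfl; exact hℓ hcA
    have hsub : ((({ℓ, a, b, c} : Finset V)) : Set V) ⊆ G.neighborSet p := by
      intro t ht
      simp only [Finset.coe_insert, Finset.coe_singleton, Set.mem_insert_iff,
        Set.mem_singleton_iff] at ht
      rcases ht with rfl | rfl | rfl | rfl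
      · exact hadj.symm
      · exact hpa
      · exact hpb
      · exact hpc
    have h4' : (({ℓ, a, b, c} : Finset V) : Set V).ncard = 4 := by
      rw [Set.ncard_coe_finset]
      rw [Finset.card_insert_of_notMem, Finset.card_insert_of_notMem,
        Finset.card_insert_of_notMem, Finset.card_singleton]
      · simp [hbc]
      · simp [hab, hac]
      · simp [hla, hlb, hlc]
    have := Set.ncard_le_ncard hsub hfin
    omega

theorem exists_Br : ∀ (n : ℕ) (V : Type) [Fintype V] (G : SimpleGraph V),
    SubcubicTree G → Fintype.card V = n + 1 → ∃ b w, Br G b (some w) Finset.univ := by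
  intro n
  induction n with
  | zero =>
    intro V _ G hG hn
    obtain ⟨v, hv⟩ := Fintype.card_eq_one_iff.mp hn
    refine ⟨.n .e .e, v, ?_⟩
    have h := Br.n (G := G) v Br.e Br.e (by simp) (by simp) (by simp) (by simp) (by simp) (by simp)
    have e : (Finset.univ : Finset V) = insert v (∅ ∪ ∅) := by
      ext t; simp [hv t]
    rw [e]; exact h
  | succ n ih =>
    intro V _ G hG hn
    have hnt : Nontrivial V := by
      rw [← Fintype.one_lt_card_iff_nontrivial]; omega
    obtain ⟨ℓ, hℓ⟩ := hG.1.exists_vert_degree_one_of_nontrivial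
    have hconn := hG.1.connected.induce_compl_singleton_of_degree_eq_one hℓ
    have hacyc := hG.1.isAcyclic.induce ({ℓ}ᶜ : Set V)
    rw [SimpleGraph.degree_eq_one_iff_existsUnique_adj] at hℓ
    obtain ⟨p, hp, hpu⟩ := hℓ
    have hsub : SubcubicTree (G.induce ({ℓ}ᶜ : Set V)) := by
      refine ⟨⟨hconn, hacyc⟩, ?_⟩
      intro v
      have h1 := hG.2 v.1
      have h2 : ((G.induce ({ℓ}ᶜ : Set V)).neighborSet v).ncard =
          ((fun x : ({ℓ}ᶜ : Set V) => x.1) '' ((G.induce ({ℓ}ᶜ : Set V)).neighborSet v)).ncard :=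
        (Set.ncard_image_of_injective _ Subtype.val_injective).symm
      rw [h2]
      refine (Set.ncard_le_ncard ?_ (Set.toFinite _)).trans h1
      rintro x ⟨y, hy, rfl⟩
      exact hy
    have hcard : Fintype.card ({ℓ}ᶜ : Set V) = n + 1 := by
      rw [Fintype.card_compl_set]
      simp only [Set.fintypeCard_eq_ncard, Set.ncard_singleton]
      omega
    obtain ⟨b, w, hb⟩ := ih ({ℓ}ᶜ : Set V) (G.induce ({ℓ}ᶜ : Set V)) hsub hcard
    have hb' := hb.map (SimpleGraph.Embedding.induce ({ℓ}ᶜ : Set V))
    simp only [Option.map_some] at hb'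
    have hS : (Finset.univ : Finset ({ℓ}ᶜ : Set V)).map
        (SimpleGraph.Embedding.induce (G := G) ({ℓ}ᶜ : Set V)).toEmbedding =
        Finset.univ.erase ℓ := by
      ext t
      simp only [Finset.mem_map, Finset.mem_univ, true_and, Finset.mem_erase, and_true]
      constructor
      · rintro ⟨x, rfl⟩
        exact x.2
      · intro ht
        exact ⟨⟨t, ht⟩, rfl⟩
    rw [hS] at hb'
    obtain ⟨b', w', h⟩ := hb'.add_leaf (ℓ := ℓ) (p := p) (by simp)
      (by simp only [Finset.mem_erase, Finset.mem_univ, and_true]; exact hp.ne') hp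
      (fun x _ hx => hpu x hx) (Set.toFinite _) (hG.2 p)
    rw [Finset.insert_erase (Finset.mem_univ _)] at h
    exact ⟨b', w', h⟩

end Pool.Agent.Helper60.Idg
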